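import Mathlib

set_option autoImplicit false

/-! # Chernoff bounds for sums of independent indicators, and grouping -/

open MeasureTheory ProbabilityTheory Filter Finset Topology

namespace Pool.Agent.U839.Gb

variable {Ω : Type*} [MeasurableSpace Ω] {μ : Measure Ω}

/-- intersections over disjoint sets of indices are independent -/
theorem group {E : ℕ → Set Ω} (hm : ∀ n, MeasurableSet (E n)) (hE : iIndepSet E μ) (U : ℕ → Finset ℕ)
    (hU : ∀ a b, a ≠ b → Disjoint (U a) (U b)) : iIndepSet (fun a => ⋂ m ∈ U a, E m) μ := by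
  classical
  rw [iIndepSet_iff_meas_biInter (fun a => Finset.measurableSet_biInter _ (fun m _ => hm m))]
  intro s
  have h1 : (⋂ a ∈ s, ⋂ m ∈ U a, E m) = ⋂ m ∈ s.biUnion U, E m := by
    ext ω
    simp only [Set.mem_iInter, mem_biUnion, forall_exists_index, and_imp]
    exact ⟨fun h m a ha hm => h a ha m hm, fun h a ha m hm => h m a ha hm⟩
  rw [h1, hE.meas_biInter, prod_biUnion (fun a _ b _ hab => hU a b hab)]
  apply prod_congr rfl
  intro a _
  rw [hE.meas_biInter]

variable [IsProbabilityMeasure μ]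

omit [MeasurableSpace Ω] in
theorem ind_exp (F : Set Ω) (t : ℝ) (ω : Ω) :
    Real.exp (t * F.indicator (fun _ => (1 : ℝ)) ω) = 1 + F.indicator (fun _ => (Real.exp t - 1)) ω := by
  by_cases h : ω ∈ F
  · rw [Set.indicator_of_mem h, Set.indicator_of_mem h, mul_one]
    ring
  · rw [Set.indicator_of_notMem h, Set.indicator_of_notMem h, mul_zero, Real.exp_zero, add_zero]

theorem mgf_ind (F : Set Ω) (hF : MeasurableSet F) (t : ℝ) :
    mgf (F.indicator (fun _ => (1 : ℝ))) μ t = 1 + μ.real F * (Real.exp t - 1) := by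
  unfold mgf
  simp only [ind_exp]
  rw [integral_add (integrable_const _) ((integrable_const _).indicator hF), integral_const,
    integral_indicator_const _ hF]
  simp

/-- the number of the events that hold -/
noncomputable def SS (F : ℕ → Set Ω) (s : Finset ℕ) : Ω → ℝ := ∑ a ∈ s, (F a).indicator (fun _ => (1 : ℝ))

omit [MeasurableSpace Ω] in
open Classical in
theorem SS_eq (F : ℕ → Set Ω) (s : Finset ℕ) (ω : Ω) : SS F s ω = (s.filter (fun a => ω ∈ F a)).card := by
  unfold SS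
  rw [Finset.sum_apply, card_filter]
  push_cast
  apply sum_congr rfl
  intro a _
  by_cases h : ω ∈ F a
  · rw [Set.indicator_of_mem h, if_pos h]
  · rw [Set.indicator_of_notMem h, if_neg h]

theorem SS_meas (F : ℕ → Set Ω) (hF : ∀ n, MeasurableSet (F n)) (s : Finset ℕ) : Measurable (SS F s) := by
  have h1 : SS F s = fun ω => ∑ a ∈ s, (F a).indicator (fun _ => (1 : ℝ)) ω := by
    ext ω
    unfold SS
    exact Finset.sum_apply _ _ _
  rw [h1]
  apply Finset.measurable_sum
  intro a _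
  exact measurable_const.indicator (hF a)

omit [MeasurableSpace Ω] in
theorem SS_bdd (F : ℕ → Set Ω) (s : Finset ℕ) (ω : Ω) : |SS F s ω| ≤ s.card := by
  classical
  rw [SS_eq, abs_of_nonneg (Nat.cast_nonneg _)]
  exact_mod_cast card_filter_le _ _

theorem SS_int (F : ℕ → Set Ω) (hF : ∀ n, MeasurableSet (F n)) (s : Finset ℕ) (t : ℝ) :
    Integrable (fun ω => Real.exp (t * SS F s ω)) μ := by
  apply Integrable.of_bound (((SS_meas F hF s).const_mul t).exp.aestronglyMeasurable) (Real.exp (|t| * s.card))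
  filter_upwards with ω
  rw [Real.norm_of_nonneg (Real.exp_pos _).le]
  apply Real.exp_le_exp.2
  calc t * SS F s ω ≤ |t * SS F s ω| := le_abs_self _
    _ = |t| * |SS F s ω| := abs_mul _ _
    _ ≤ |t| * s.card := by
        gcongr
        exact SS_bdd F s ω

theorem SS_mgf (F : ℕ → Set Ω) (hF : ∀ n, MeasurableSet (F n)) (hi : iIndepSet F μ) (s : Finset ℕ) (t : ℝ) :
    mgf (SS F s) μ t ≤ Real.exp ((∑ a ∈ s, μ.real (F a)) * (Real.exp t - 1)) := by
  unfold SS
  rw [(hi.iIndepFun_indicator (β := ℝ)).mgf_sum (fun a => measurable_const.indicator (hF a)), sum_mul, Real.exp_sum]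
  apply Finset.prod_le_prod
  · intro a _
    exact mgf_nonneg
  · intro a _
    rw [mgf_ind _ (hF a)]
    have := Real.add_one_le_exp (μ.real (F a) * (Real.exp t - 1))
    linarith

/-- upper tail -/
theorem chern_up (F : ℕ → Set Ω) (hF : ∀ n, MeasurableSet (F n)) (hi : iIndepSet F μ) (s : Finset ℕ)
    (ε : ℝ) (hε : 0 ≤ ε) (hε1 : ε ≤ 1) :
    μ.real {ω | (1 + ε) * ∑ a ∈ s, μ.real (F a) ≤ SS F s ω} ≤
      Real.exp (-(ε ^ 2 / 4 * ∑ a ∈ s, μ.real (F a))) := by
  have hm0 : 0 ≤ ∑ a ∈ s, μ.real (F a) := sum_nonneg (fun _ _ => measureReal_nonneg)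
  refine (measure_ge_le_exp_mul_mgf (t := ε / 2) _ (by linarith) (SS_int F hF s _)).trans ?_
  refine (mul_le_mul_of_nonneg_left (SS_mgf F hF hi s _) (Real.exp_pos _).le).trans ?_
  rw [← Real.exp_add]
  apply Real.exp_le_exp.2
  have h1 : Real.exp (ε / 2) ≤ 1 + ε / 2 + (ε / 2) ^ 2 := by
    have h2 := Real.abs_exp_sub_one_sub_id_le (x := ε / 2) (by rw [abs_of_nonneg (by linarith)]; linarith)
    have h3 := (abs_le.1 h2).2
    linarith
  have h4 : (∑ a ∈ s, μ.real (F a)) * (Real.exp (ε / 2) - 1) ≤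
      (∑ a ∈ s, μ.real (F a)) * (ε / 2 + (ε / 2) ^ 2) := by
    apply mul_le_mul_of_nonneg_left _ hm0
    linarith
  nlinarith

/-- lower tail -/
theorem chern_low (F : ℕ → Set Ω) (hF : ∀ n, MeasurableSet (F n)) (hi : iIndepSet F μ) (s : Finset ℕ)
    (ε : ℝ) (hε : 0 ≤ ε) (hε1 : ε ≤ 1) :
    μ.real {ω | SS F s ω ≤ (1 - ε) * ∑ a ∈ s, μ.real (F a)} ≤
      Real.exp (-(ε ^ 2 / 4 * ∑ a ∈ s, μ.real (F a))) := by
  have hm0 : 0 ≤ ∑ a ∈ s, μ.real (F a) := sum_nonneg (fun _ _ => measureReal_nonneg)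
  refine (measure_le_le_exp_mul_mgf (t := -(ε / 2)) _ (by linarith) (SS_int F hF s _)).trans ?_
  refine (mul_le_mul_of_nonneg_left (SS_mgf F hF hi s _) (Real.exp_pos _).le).trans ?_
  rw [← Real.exp_add]
  apply Real.exp_le_exp.2
  have h1 : Real.exp (-(ε / 2)) ≤ 1 + -(ε / 2) + (ε / 2) ^ 2 := by
    have h2 := Real.abs_exp_sub_one_sub_id_le (x := -(ε / 2))
      (by rw [abs_neg, abs_of_nonneg (by linarith)]; linarith)
    have h3 := (abs_le.1 h2).2
    rw [neg_sq] at h3
    linarith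
  have h4 : (∑ a ∈ s, μ.real (F a)) * (Real.exp (-(ε / 2)) - 1) ≤
      (∑ a ∈ s, μ.real (F a)) * (-(ε / 2) + (ε / 2) ^ 2) := by
    apply mul_le_mul_of_nonneg_left _ hm0
    linarith
  nlinarith

end Pool.Agent.U839.Gb
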