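import Mathlib
import Pool.Agent.N792.FlGen
import Pool.Agent.U839.Sv.Fin

set_option autoImplicit false

/-! # Sums over the solutions of `a + b = n` in the sieve model -/

open Finset Filter Topology

namespace Pool.Agent.U839.Gb

open Pool.Agent.U839.Sv (Pr mem_Pr W W_eq W_pos one_sub_pos exists_level fT fT_nonneg)

/-- the forbidden classes modulo `p` -/
def Om (n p : ℕ) : Finset ℕ := {0, n % p}

theorem Om_dvd {n p : ℕ} (h : p ∣ n) : (Om n p).card = 1 := by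
  unfold Om
  rw [Nat.mod_eq_zero_of_dvd h]
  simp

theorem Om_ndvd {n p : ℕ} (h : ¬ p ∣ n) : (Om n p).card = 2 := by
  unfold Om
  rw [card_pair]
  intro h1
  exact h (Nat.dvd_of_mod_eq_zero h1.symm)

theorem Om_le (n p : ℕ) : (Om n p).card ≤ 2 := card_le_two

/-- the local factor -/
noncomputable def lf (n p : ℕ) : ℝ := (1 - ((Om n p).card : ℝ) / p) * ((1 - 1 / (p : ℝ))⁻¹) ^ 2

/-- the singular series up to `t` -/
noncomputable def Ss (n t : ℕ) : ℝ := ∏ p ∈ Pr t, lf n p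

/-- the forbidden classes -/
def Omj (n i p : ℕ) : Finset ℕ := if p ≤ i then Om n p else {n % p}

theorem W_prod (n i j : ℕ) (hij : i ≤ j) :
    W i * W j * ∏ p ∈ Pr j, (1 - ((Omj n i p).card : ℝ) / p) = Ss n i := by
  have hsub : Pr i ⊆ Pr j := by
    intro p hp
    rw [mem_Pr] at hp ⊢
    exact ⟨hp.1, hp.2.trans hij⟩
  have h1 : ∏ p ∈ Pr j, (1 - ((Omj n i p).card : ℝ) / p) =
      (∏ p ∈ Pr j \ Pr i, (1 - 1 / (p : ℝ))) * ∏ p ∈ Pr i, (1 - ((Om n p).card : ℝ) / p) := by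
    rw [← prod_sdiff hsub]
    congr 1
    · apply prod_congr rfl
      intro p hp
      rw [Finset.mem_sdiff, mem_Pr, mem_Pr] at hp
      have h2 : ¬ p ≤ i := fun h => hp.2 ⟨hp.1.1, h⟩
      unfold Omj
      rw [if_neg h2, card_singleton, Nat.cast_one]
    · apply prod_congr rfl
      intro p hp
      rw [mem_Pr] at hp
      unfold Omj
      rw [if_pos hp.2]
  have h2 : W j = (∏ p ∈ Pr j \ Pr i, (1 - 1 / (p : ℝ))⁻¹) * W i := by
    rw [W_eq, W_eq, prod_sdiff hsub]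
  have h3 : (∏ p ∈ Pr j \ Pr i, (1 - 1 / (p : ℝ))⁻¹) * ∏ p ∈ Pr j \ Pr i, (1 - 1 / (p : ℝ)) = 1 := by
    rw [← prod_mul_distrib]
    apply prod_eq_one
    intro p hp
    rw [Finset.mem_sdiff, mem_Pr] at hp
    exact inv_mul_cancel₀ (one_sub_pos hp.1.1).ne'
  rw [h1, h2]
  have h4 : Ss n i = W i * W i * ∏ p ∈ Pr i, (1 - ((Om n p).card : ℝ) / p) := by
    unfold Ss
    rw [W_eq, ← prod_mul_distrib, ← prod_mul_distrib]
    apply prod_congr rfl
    intro p _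
    unfold lf
    ring
  rw [h4]
  calc W i * ((∏ p ∈ Pr j \ Pr i, (1 - 1 / (p : ℝ))⁻¹) * W i) *
      ((∏ p ∈ Pr j \ Pr i, (1 - 1 / (p : ℝ))) * ∏ p ∈ Pr i, (1 - ((Om n p).card : ℝ) / p))
      = ((∏ p ∈ Pr j \ Pr i, (1 - 1 / (p : ℝ))⁻¹) * ∏ p ∈ Pr j \ Pr i, (1 - 1 / (p : ℝ))) *
        (W i * W i * ∏ p ∈ Pr i, (1 - ((Om n p).card : ℝ) / p)) := by ring
    _ = _ := by rw [h3, one_mul]

open Classical in
/-- the fundamental lemma on an interval -/
theorem cnt (b₀ : ℕ) : ∃ K : ℝ, ∃ D : ℕ, 0 < K ∧ ∀ n i j n1 n2 : ℕ, i ≤ j → n1 ≤ n2 → n2 ≤ n → 1 ≤ n →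
    |W i * W j * (((Ioc n1 n2).filter (fun a => (∀ p, p.Prime → p ≤ i → ¬ p ∣ a) ∧
      ∀ p, p.Prime → p ≤ j → ¬ p ∣ n - a)).card : ℝ) - ((n2 : ℝ) - n1) * Ss n i| ≤
      (1 / 2) ^ b₀ * (((n2 : ℝ) - n1) * Ss n i) + K * ((j : ℝ) + 2) ^ D := by
  obtain ⟨C, hC, H⟩ := Pool.Agent.N792.fl_gen'
  obtain ⟨b, hb⟩ : ∃ b, b = C * 3 + b₀ := ⟨_, rfl⟩
  refine ⟨((C * 3 : ℕ) : ℝ) ^ (C * 3), 4 * (C * b) + 4, by positivity, fun n i j n1 n2 hij h12 h2n hn => ?_⟩
  obtain ⟨J, hJ1, hJ2, hJ3⟩ := exists_level j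
  obtain ⟨S, hS⟩ : ∃ S, S = (Ioc n1 n2).filter (fun a => (∀ p, p.Prime → p ≤ i → ¬ p ∣ a) ∧
      ∀ p, p.Prime → p ≤ j → ¬ p ∣ n - a) := ⟨_, rfl⟩
  rw [← hS]
  have key : ∀ a p : ℕ, a ≤ n → (p ∣ n - a ↔ a % p = n % p) := by
    intro a p ha
    rw [← Nat.modEq_iff_dvd' ha]
    rfl
  have h := H 2 b J (C * 3) 1 n1 n2 (Pr j) (Omj n i) {0} S le_rfl (by omega) (by omega) le_rfl
    h12 (by simp) (fun p hp => by
      rw [mem_Pr] at hp
      exact ⟨hp.1, hp.2.trans hJ2, by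
        intro h1
        exact hp.1.one_lt.ne' (Nat.dvd_one.1 h1)⟩)
    (fun p hp => by
      rw [mem_Pr] at hp
      have h1 := Nat.mod_lt n hp.1.pos
      unfold Omj Om
      split_ifs
      · intro r hr
        rw [mem_insert, mem_singleton] at hr
        rw [mem_range]
        rcases hr with h | h
        · rw [h]
          exact hp.1.pos
        · rw [h]
          exact h1
      · intro r hr
        rw [mem_singleton] at hr
        rw [mem_range, hr]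
        exact h1) (fun p hp _ => by
      unfold Omj
      split_ifs
      · exact Om_le n p
      · rw [card_singleton]
        norm_num) (fun a => by
      rw [hS, mem_filter, mem_Ioc]
      constructor
      · rintro ⟨h1, h2, h3⟩
        refine ⟨h1, by simp [Nat.mod_one], fun p hp => ?_⟩
        rw [mem_Pr] at hp
        unfold Omj Om
        split_ifs with h4
        · rw [mem_insert, mem_singleton, not_or]
          refine ⟨fun h5 => h2 p hp.1 h4 (Nat.dvd_of_mod_eq_zero h5), fun h5 => ?_⟩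
          exact h3 p hp.1 hp.2 ((key a p (by omega)).2 h5)
        · rw [mem_singleton]
          intro h5
          exact h3 p hp.1 hp.2 ((key a p (by omega)).2 h5)
      · rintro ⟨h1, _, h2⟩
        refine ⟨h1, fun p hp hpi hdvd => ?_, fun p hp hpj hdvd => ?_⟩
        · have h3 := h2 p (mem_Pr.2 ⟨hp, hpi.trans hij⟩)
          unfold Omj Om at h3
          rw [if_pos hpi, mem_insert, mem_singleton, not_or] at h3
          exact h3.1 (Nat.mod_eq_zero_of_dvd hdvd)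
        · have h3 := h2 p (mem_Pr.2 ⟨hp, hpj⟩)
          have h4 := (key a p (by omega)).1 hdvd
          unfold Omj Om at h3
          split_ifs at h3
          · rw [mem_insert, mem_singleton, not_or] at h3
            exact h3.2 h4
          · rw [mem_singleton] at h3
            exact h3 h4)
  rw [card_singleton] at h
  obtain ⟨V, hV⟩ : ∃ V, V = ∏ p ∈ Pr j, (1 - ((Omj n i p).card : ℝ) / p) := ⟨_, rfl⟩
  have hVS := W_prod n i j hij
  rw [← hV] at h hVS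
  have hWW : 0 < W i * W j := mul_pos (W_pos i) (W_pos j)
  have e1 : ((n2 : ℝ) - n1) * (((1 : ℕ) : ℝ) / ((1 : ℕ) : ℝ)) * V = (n2 - n1) * V := by
    push_cast
    ring
  rw [e1] at h
  have hn12 : (0 : ℝ) ≤ (n2 : ℝ) - n1 := by
    have : (n1 : ℝ) ≤ n2 := by exact_mod_cast h12
    linarith
  have hV0 : 0 ≤ V := by
    rw [hV]
    apply Finset.prod_nonneg
    intro p hp
    rw [mem_Pr] at hp
    have hp2 : (2 : ℝ) ≤ p := by exact_mod_cast hp.1.two_le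
    have hc : ((Omj n i p).card : ℝ) ≤ 2 := by
      have : (Omj n i p).card ≤ 2 := by
        unfold Omj
        split_ifs
        · exact Om_le n p
        · rw [card_singleton]
          norm_num
      exact_mod_cast this
    rw [sub_nonneg, div_le_one (by linarith)]
    linarith
  have h5 : |W i * W j * (S.card : ℝ) - ((n2 : ℝ) - n1) * Ss n i| =
      W i * W j * |(S.card : ℝ) - ((n2 : ℝ) - n1) * V| := by
    rw [← hVS, ← abs_of_pos hWW, ← abs_mul, abs_of_pos hWW]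
    congr 1
    ring
  rw [h5]
  have e2 : (1 / 2 : ℝ) ^ b ≤ (1 / 2) ^ b₀ := by
    apply pow_le_pow_of_le_one (by norm_num) (by norm_num)
    omega
  have e3 : W i * W j * ((1 / 2 : ℝ) ^ b * (((n2 : ℝ) - n1) * V)) ≤
      (1 / 2) ^ b₀ * (((n2 : ℝ) - n1) * Ss n i) := by
    rw [← hVS]
    have h6 : 0 ≤ ((n2 : ℝ) - n1) * (W i * W j * V) := by positivity
    calc W i * W j * ((1 / 2 : ℝ) ^ b * (((n2 : ℝ) - n1) * V))
        = (1 / 2 : ℝ) ^ b * (((n2 : ℝ) - n1) * (W i * W j * V)) := by ring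
      _ ≤ _ := mul_le_mul_of_nonneg_right e2 h6
  have e5 : W i * W j * (((1 : ℕ) : ℝ) * ((C * 3 : ℕ) : ℝ) ^ (C * 3) * ((J : ℝ) + 2) *
      ((2 ^ 2 ^ J) ^ (C * b)) ^ 2) ≤ ((C * 3 : ℕ) : ℝ) ^ (C * 3) * ((j : ℝ) + 2) ^ (4 * (C * b) + 4) := by
    have k1 : (2 : ℝ) ^ 2 ^ J ≤ ((j : ℝ) + 2) ^ 2 := by
      have k2 : ((2 ^ 2 ^ J : ℕ) : ℝ) ≤ (((max j 2) ^ 2 : ℕ) : ℝ) := by exact_mod_cast hJ3
      push_cast at k2
      refine k2.trans ?_
      apply pow_le_pow_left₀ (by positivity)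
      apply max_le
      · linarith
      · have : (0 : ℝ) ≤ j := Nat.cast_nonneg j
        linarith
    have k3 : (J : ℝ) + 2 ≤ (2 : ℝ) ^ 2 ^ J := by
      have k4 : J + 2 ≤ 2 ^ 2 ^ J := by
        have k5 : J + 1 ≤ 2 ^ J := Nat.lt_two_pow_self
        have k6 : 2 ^ J + 1 ≤ 2 ^ 2 ^ J := Nat.lt_two_pow_self
        omega
      exact_mod_cast k4
    have k7 : (J : ℝ) + 2 ≤ ((j : ℝ) + 2) ^ 2 := k3.trans k1
    have hij' : (i : ℝ) ≤ j := by exact_mod_cast hij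
    have w1 : W i ≤ (j : ℝ) + 2 := by
      have := Pool.Agent.U839.Sv.W_le' i
      linarith
    have w2 : W j ≤ (j : ℝ) + 2 := by
      have := Pool.Agent.U839.Sv.W_le' j
      linarith
    have hWi := (W_pos i).le
    have hWj := (W_pos j).le
    calc W i * W j * (((1 : ℕ) : ℝ) * ((C * 3 : ℕ) : ℝ) ^ (C * 3) * ((J : ℝ) + 2) *
        ((2 ^ 2 ^ J) ^ (C * b)) ^ 2) ≤ ((j : ℝ) + 2) * ((j : ℝ) + 2) *
        (1 * ((C * 3 : ℕ) : ℝ) ^ (C * 3) * ((j : ℝ) + 2) ^ 2 *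
        ((((j : ℝ) + 2) ^ 2) ^ (C * b)) ^ 2) := by
          rw [Nat.cast_one]
          gcongr
      _ = ((C * 3 : ℕ) : ℝ) ^ (C * 3) * ((j : ℝ) + 2) ^ (4 * (C * b) + 4) := by
          rw [one_mul, ← pow_mul, ← pow_mul]
          have : 4 * (C * b) + 4 = 1 + 1 + 2 + 2 * (C * b) * 2 := by ring
          rw [this, pow_add, pow_add, pow_add, pow_one]
          ring
  calc W i * W j * |(S.card : ℝ) - ((n2 : ℝ) - n1) * V|
      ≤ W i * W j * ((1 / 2) ^ b * (((n2 : ℝ) - n1) * V) + ((1 : ℕ) : ℝ) * ((C * 3 : ℕ) : ℝ) ^ (C * 3) *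
        ((J : ℝ) + 2) * ((2 ^ 2 ^ J) ^ (C * b)) ^ 2) := mul_le_mul_of_nonneg_left h hWW.le
    _ = W i * W j * ((1 / 2 : ℝ) ^ b * (((n2 : ℝ) - n1) * V)) + W i * W j * (((1 : ℕ) : ℝ) *
        ((C * 3 : ℕ) : ℝ) ^ (C * 3) * ((J : ℝ) + 2) * ((2 ^ 2 ^ J) ^ (C * b)) ^ 2) := by ring
    _ ≤ _ := add_le_add e3 e5

end Pool.Agent.U839.Gb
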