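import Mathlib
import Pool.Agent.U839.Gb.Fl

set_option autoImplicit false

/-! # The sum over the solutions: decomposition into intervals -/

open Finset Filter Topology

namespace Pool.Agent.U839.Gb

open Pool.Agent.U839.Sv (Pr mem_Pr W W_eq W_pos one_sub_pos exists_level fT fT_nonneg)

theorem lf_nonneg {n p : ℕ} (hp : p.Prime) : 0 ≤ lf n p := by
  have hp2 : (2 : ℝ) ≤ p := by exact_mod_cast hp.two_le
  have hc : ((Om n p).card : ℝ) ≤ 2 := by exact_mod_cast Om_le n p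
  unfold lf
  apply mul_nonneg _ (sq_nonneg _)
  rw [sub_nonneg, div_le_one (by linarith)]
  linarith

theorem Ss_nonneg (n t : ℕ) : 0 ≤ Ss n t := by
  unfold Ss
  apply Finset.prod_nonneg
  intro p hp
  exact lf_nonneg (mem_Pr.1 hp).1

theorem convex_Ioc (A : Finset ℕ) (hA : ∀ a ∈ A, ∀ b ∈ A, ∀ c, a ≤ c → c ≤ b → c ∈ A) (hne : A.Nonempty)
    (h1 : ∀ a ∈ A, 1 ≤ a) : ∃ m M, m ≤ M ∧ M ∈ A ∧ A = Ioc m M := by
  refine ⟨A.min' hne - 1, A.max' hne, ?_, A.max'_mem hne, ?_⟩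
  · have := A.min'_le _ (A.max'_mem hne)
    omega
  · have hm := h1 _ (A.min'_mem hne)
    ext c
    rw [mem_Ioc]
    constructor
    · intro hc
      have h2 := A.min'_le c hc
      have h3 := A.le_max' c hc
      omega
    · rintro ⟨h2, h3⟩
      exact hA _ (A.min'_mem hne) _ (A.max'_mem hne) c (by omega) h3

open Classical in
/-- the sum over a long interval -/
theorem sumF (b₀ : ℕ) : ∃ K : ℝ, ∃ D : ℕ, 0 < K ∧ ∀ T : ℕ → ℕ, Monotone T → ∀ n n1 n2 : ℕ, n1 ≤ n2 →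
    2 * n2 ≤ n → 1 ≤ n →
    |∑ a ∈ Ioc n1 n2, fT T a * fT T (n - a) - ∑ a ∈ Ioc n1 n2, Ss n (T a)| ≤
      (1 / 2) ^ b₀ * ∑ a ∈ Ioc n1 n2, Ss n (T a) + K * ((T n : ℝ) + 2) ^ D := by
  obtain ⟨K, D, hK, H⟩ := cnt b₀
  refine ⟨K, D + 2, hK, fun T hT n n1 n2 h12 h2n hn => ?_⟩
  obtain ⟨t, ht⟩ : ∃ t, t = T n := ⟨_, rfl⟩
  rw [← ht]
  obtain ⟨I, hI⟩ : ∃ I : Finset (ℕ × ℕ), I = range (t + 1) ×ˢ range (t + 1) := ⟨_, rfl⟩
  have hmaps : ∀ a ∈ Ioc n1 n2, (fun a => (T a, T (n - a))) a ∈ I := by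
    intro a ha
    rw [mem_Ioc] at ha
    rw [hI, mem_product, mem_range, mem_range]
    simp only
    have h3 : T a ≤ T n := hT (by omega)
    have h4 : T (n - a) ≤ T n := hT (Nat.sub_le _ _)
    omega
  have key : ∀ y ∈ I, |∑ a ∈ (Ioc n1 n2).filter (fun a => (fun a => (T a, T (n - a))) a = y),
      fT T a * fT T (n - a) - ∑ a ∈ (Ioc n1 n2).filter (fun a => (fun a => (T a, T (n - a))) a = y), Ss n (T a)| ≤
      (1 / 2) ^ b₀ * ∑ a ∈ (Ioc n1 n2).filter (fun a => (fun a => (T a, T (n - a))) a = y), Ss n (T a) +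
        K * ((t : ℝ) + 2) ^ D := by
    rintro ⟨i, j⟩ hy
    rw [hI, mem_product, mem_range, mem_range] at hy
    simp only at hy
    obtain ⟨A, hA⟩ : ∃ A, A = (Ioc n1 n2).filter (fun a => (fun a => (T a, T (n - a))) a = (i, j)) := ⟨_, rfl⟩
    rw [← hA]
    have hAm : ∀ a, a ∈ A ↔ (n1 < a ∧ a ≤ n2) ∧ T a = i ∧ T (n - a) = j := by
      intro a
      rw [hA, mem_filter, mem_Ioc]
      simp only [Prod.mk.injEq]
    rcases A.eq_empty_or_nonempty with h0 | hne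
    · rw [h0]
      simp only [sum_empty, sub_zero, abs_zero, mul_zero, zero_add]
      positivity
    have hconv : ∀ a ∈ A, ∀ b ∈ A, ∀ c, a ≤ c → c ≤ b → c ∈ A := by
      intro a ha b hb c hac hcb
      rw [hAm] at ha hb ⊢
      have h3 : T a ≤ T c := hT hac
      have h4 : T c ≤ T b := hT hcb
      have h5 : T (n - b) ≤ T (n - c) := hT (by omega)
      have h6 : T (n - c) ≤ T (n - a) := hT (by omega)
      omega
    obtain ⟨m, M, hmM, hMA, hIoc⟩ := convex_Ioc A hconv hne (fun a ha => by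
      rw [hAm] at ha
      omega)
    rw [hAm] at hMA
    have hij : i ≤ j := by
      have h3 : T M ≤ T (n - M) := hT (by omega)
      omega
    have hF : ∑ a ∈ A, fT T a * fT T (n - a) = W i * W j * (((Ioc m M).filter (fun a =>
        (∀ p, p.Prime → p ≤ i → ¬ p ∣ a) ∧ ∀ p, p.Prime → p ≤ j → ¬ p ∣ n - a)).card : ℝ) := by
      have h3 : ∀ a ∈ A, fT T a * fT T (n - a) = W i * W j * (if ((∀ p, p.Prime → p ≤ i → ¬ p ∣ a) ∧
          ∀ p, p.Prime → p ≤ j → ¬ p ∣ n - a) then 1 else 0) := by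
        intro a ha
        rw [hAm] at ha
        unfold fT
        rw [ha.2.1, ha.2.2]
        by_cases h4 : ∀ p, p.Prime → p ≤ i → ¬ p ∣ a
        · by_cases h5 : ∀ p, p.Prime → p ≤ j → ¬ p ∣ n - a
          · rw [if_pos h4, if_pos h5, if_pos ⟨h4, h5⟩, mul_one]
          · have h6 : ¬ ((∀ p, p.Prime → p ≤ i → ¬ p ∣ a) ∧ ∀ p, p.Prime → p ≤ j → ¬ p ∣ n - a) :=
              fun h => h5 h.2
            rw [if_neg h5, if_neg h6, mul_zero, mul_zero]
        · have h6 : ¬ ((∀ p, p.Prime → p ≤ i → ¬ p ∣ a) ∧ ∀ p, p.Prime → p ≤ j → ¬ p ∣ n - a) :=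
              fun h => h4 h.1
          rw [if_neg h4, if_neg h6, zero_mul, mul_zero]
      rw [sum_congr rfl h3, ← mul_sum, hIoc, ← sum_filter, sum_const, nsmul_eq_mul, mul_one]
    have hG : ∑ a ∈ A, Ss n (T a) = ((M : ℝ) - m) * Ss n i := by
      have h3 : ∀ a ∈ A, Ss n (T a) = Ss n i := by
        intro a ha
        rw [hAm] at ha
        rw [ha.2.1]
      rw [sum_congr rfl h3, sum_const, nsmul_eq_mul, hIoc, Nat.card_Ioc, Nat.cast_sub hmM]
    rw [hF, hG]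
    refine (H n i j m M hij hmM (by omega) hn).trans ?_
    have h7 : (j : ℝ) ≤ t := by
      have : j ≤ t := by omega
      exact_mod_cast this
    gcongr
  have e1 := sum_fiberwise_of_maps_to hmaps (fun a => fT T a * fT T (n - a))
  have e2 := sum_fiberwise_of_maps_to hmaps (fun a => Ss n (T a))
  rw [← e1, ← e2, ← sum_sub_distrib]
  refine (abs_sum_le_sum_abs _ _).trans ((sum_le_sum key).trans ?_)
  rw [sum_add_distrib, ← mul_sum, sum_const, nsmul_eq_mul, hI, card_product, card_range]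
  have h8 : (((t + 1) * (t + 1) : ℕ) : ℝ) ≤ ((t : ℝ) + 2) ^ 2 := by
    push_cast
    have : (0 : ℝ) ≤ t := Nat.cast_nonneg t
    nlinarith
  have h9 : (((t + 1) * (t + 1) : ℕ) : ℝ) * (K * ((t : ℝ) + 2) ^ D) ≤ K * ((t : ℝ) + 2) ^ (D + 2) := by
    calc (((t + 1) * (t + 1) : ℕ) : ℝ) * (K * ((t : ℝ) + 2) ^ D) ≤ ((t : ℝ) + 2) ^ 2 * (K * ((t : ℝ) + 2) ^ D) := by
          gcongr
      _ = K * ((t : ℝ) + 2) ^ (D + 2) := by ring
  linarith

end Pool.Agent.U839.Gb
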