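import Mathlib
import Pool.Agent.U839.Gb.Sum

set_option autoImplicit false

/-! # The singular series of the Goldbach problem -/

open Finset Filter Topology

namespace Pool.Agent.U839.Gb

open Pool.Agent.U839.Sv (Pr mem_Pr W W_eq W_pos one_sub_pos)

noncomputable def gg (p : ℕ) : ℝ := 1 - 1 / ((p : ℝ) - 1) ^ 2
noncomputable def hh (p : ℕ) : ℝ := ((p : ℝ) - 1) / (p - 2)
noncomputable def kk (p : ℕ) : ℝ := (1 - 1 / (p : ℝ))⁻¹

/-- the odd primes up to `t` -/
def Pt (t : ℕ) : Finset ℕ := (Icc 3 t).filter Nat.Prime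

theorem mem_Pt {t p : ℕ} : p ∈ Pt t ↔ p.Prime ∧ 3 ≤ p ∧ p ≤ t := by
  unfold Pt
  rw [mem_filter, mem_Icc]
  tauto

noncomputable def cc (t : ℕ) : ℝ := ∏ p ∈ Pt t, gg p
noncomputable def C2 : ℝ := ⨅ z : ℕ, cc z

theorem gg_pos {p : ℕ} (hp : 3 ≤ p) : 0 < gg p := by
  have h : (3 : ℝ) ≤ p := by exact_mod_cast hp
  unfold gg
  rw [sub_pos, div_lt_one (by nlinarith)]
  nlinarith

theorem gg_le {p : ℕ} : gg p ≤ 1 := by
  unfold gg
  have : 0 ≤ 1 / ((p : ℝ) - 1) ^ 2 := by positivity
  linarith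

theorem hh_ge {p : ℕ} (hp : 3 ≤ p) : 1 ≤ hh p := by
  have h : (3 : ℝ) ≤ p := by exact_mod_cast hp
  unfold hh
  rw [le_div_iff₀ (by linarith)]
  linarith

theorem kk_ge {p : ℕ} (hp : 2 ≤ p) : 1 ≤ kk p := by
  have h : (2 : ℝ) ≤ p := by exact_mod_cast hp
  unfold kk
  rw [one_le_inv₀]
  · have : 0 ≤ 1 / (p : ℝ) := by positivity
    linarith
  · rw [sub_pos, div_lt_one (by linarith)]
    linarith

theorem kk_eq {p : ℕ} (hp : 3 ≤ p) : kk p = gg p * hh p := by
  have h : (3 : ℝ) ≤ p := by exact_mod_cast hp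
  have h1 : (p : ℝ) - 1 ≠ 0 := by
    have : 0 < (p : ℝ) - 1 := by linarith
    exact this.ne'
  have h2 : (p : ℝ) - 2 ≠ 0 := by
    have : 0 < (p : ℝ) - 2 := by linarith
    exact this.ne'
  have h3 : (p : ℝ) ≠ 0 := by
    have : 0 < (p : ℝ) := by linarith
    exact this.ne'
  have h4 : kk p = p / (p - 1) := by
    unfold kk
    rw [eq_div_iff h1, inv_mul_eq_iff_eq_mul₀]
    · field_simp
    · have : 1 - 1 / (p : ℝ) = (p - 1) / p := by field_simp
      rw [this]
      positivity
  rw [h4]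
  unfold gg hh
  field_simp
  ring

theorem lf_dvd {n p : ℕ} (hp : p.Prime) (h : p ∣ n) : lf n p = kk p := by
  unfold lf kk
  rw [Om_dvd h, Nat.cast_one, pow_two, ← mul_assoc, mul_inv_cancel₀ (one_sub_pos hp).ne', one_mul]

theorem lf_ndvd {n p : ℕ} (hp : 3 ≤ p) (h : ¬ p ∣ n) : lf n p = gg p := by
  have h' : (3 : ℝ) ≤ p := by exact_mod_cast hp
  have h1 : (p : ℝ) - 1 ≠ 0 := by
    have : 0 < (p : ℝ) - 1 := by linarith
    exact this.ne'
  have h3 : (p : ℝ) ≠ 0 := by
    have : 0 < (p : ℝ) := by linarith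
    exact this.ne'
  have h4 : (1 - 1 / (p : ℝ))⁻¹ = p / (p - 1) := by
    have : 1 - 1 / (p : ℝ) = (p - 1) / p := by field_simp
    rw [this, inv_div]
  unfold lf gg
  rw [Om_ndvd h, h4]
  push_cast
  field_simp
  ring

theorem lf_two {n : ℕ} (h : 2 ∣ n) : lf n 2 = 2 := by
  rw [lf_dvd Nat.prime_two h]
  unfold kk
  norm_num

theorem Pr_eq {t : ℕ} (ht : 2 ≤ t) : Pr t = insert 2 (Pt t) := by
  ext p
  rw [mem_Pr, mem_insert, mem_Pt]
  constructor
  · rintro ⟨h1, h2⟩
    have := h1.two_le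
    rcases Nat.lt_or_ge p 3 with h3 | h3
    · left
      omega
    · right
      exact ⟨h1, h3, h2⟩
  · rintro (h | ⟨h1, h2, h3⟩)
    · rw [h]
      exact ⟨Nat.prime_two, ht⟩
    · exact ⟨h1, h3⟩

theorem Ss_eq {n t : ℕ} (hn : 2 ∣ n) (ht : 2 ≤ t) :
    Ss n t = 2 * cc t * ∏ p ∈ (Pt t).filter (fun p => p ∣ n), hh p := by
  unfold Ss
  rw [Pr_eq ht, prod_insert (by rw [mem_Pt]; omega), lf_two hn, mul_assoc]
  congr 1
  unfold cc
  rw [prod_filter, ← prod_mul_distrib]
  apply prod_congr rfl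
  intro p hp
  rw [mem_Pt] at hp
  by_cases h : p ∣ n
  · rw [if_pos h, lf_dvd hp.1 h, kk_eq hp.2.1]
  · rw [if_neg h, lf_ndvd hp.2.1 h, mul_one]

theorem cc_low (t : ℕ) : 1 / 2 ≤ cc t := by
  have key : ∀ t : ℕ, 2 ≤ t → 1 / 2 * ((t : ℝ) / (t - 1)) ≤ cc t := by
    intro t ht
    induction t, ht using Nat.le_induction with
    | base =>
      have : Pt 2 = ∅ := by
        apply eq_empty_of_forall_notMem
        intro p hp
        rw [mem_Pt] at hp
        omega
      unfold cc
      rw [this, prod_empty]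
      norm_num
    | succ t ht ih =>
      have ht2 : (2 : ℝ) ≤ t := by exact_mod_cast ht
      have h1 : (t : ℝ) - 1 ≠ 0 := by
        have : 0 < (t : ℝ) - 1 := by linarith
        exact this.ne'
      have h0 : (t : ℝ) ≠ 0 := by
        have : 0 < (t : ℝ) := by linarith
        exact this.ne'
      by_cases hp : (t + 1).Prime
      · have e : Pt (t + 1) = insert (t + 1) (Pt t) := by
          ext p
          rw [mem_insert, mem_Pt, mem_Pt]
          constructor
          · rintro ⟨h1, h2, h3⟩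
            rcases Nat.lt_or_ge p (t + 1) with h4 | h4
            · right
              exact ⟨h1, h2, by omega⟩
            · left
              omega
          · rintro (h | ⟨h1, h2, h3⟩)
            · rw [h]
              exact ⟨hp, by omega, le_rfl⟩
            · exact ⟨h1, h2, by omega⟩
        unfold cc at ih ⊢
        rw [e, prod_insert (by rw [mem_Pt]; omega)]
        have h2 : gg (t + 1) = ((t : ℝ) - 1) * (t + 1) / t ^ 2 := by
          unfold gg
          push_cast
          rw [add_sub_cancel_right]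
          field_simp
          ring
        have h3 : 1 / 2 * (((t + 1 : ℕ) : ℝ) / (((t + 1 : ℕ) : ℝ) - 1)) =
            gg (t + 1) * (1 / 2 * ((t : ℝ) / (t - 1))) := by
          rw [h2]
          push_cast
          rw [add_sub_cancel_right]
          field_simp
        rw [h3]
        exact mul_le_mul_of_nonneg_left ih (gg_pos (by omega)).le
      · have e : Pt (t + 1) = Pt t := by
          ext p
          rw [mem_Pt, mem_Pt]
          constructor
          · rintro ⟨h1, h2, h3⟩
            refine ⟨h1, h2, ?_⟩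
            rcases Nat.lt_or_ge p (t + 1) with h4 | h4
            · omega
            · have : p = t + 1 := by omega
              rw [this] at h1
              exact absurd h1 hp
          · rintro ⟨h1, h2, h3⟩
            exact ⟨h1, h2, by omega⟩
        unfold cc at ih ⊢
        rw [e]
        refine le_trans ?_ ih
        push_cast
        rw [add_sub_cancel_right]
        apply mul_le_mul_of_nonneg_left _ (by norm_num)
        rw [div_le_div_iff₀ (by linarith) (by linarith)]
        nlinarith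
  rcases Nat.lt_or_ge t 2 with h | h
  · have : Pt t = ∅ := by
      apply eq_empty_of_forall_notMem
      intro p hp
      rw [mem_Pt] at hp
      omega
    unfold cc
    rw [this, prod_empty]
    norm_num
  · refine le_trans ?_ (key t h)
    have ht2 : (2 : ℝ) ≤ t := by exact_mod_cast h
    have : 1 ≤ (t : ℝ) / (t - 1) := by
      rw [le_div_iff₀ (by linarith)]
      linarith
    linarith

theorem cc_anti : Antitone cc := by
  intro s t hst
  unfold cc
  have hsub : Pt s ⊆ Pt t := by
    intro p hp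
    rw [mem_Pt] at hp ⊢
    exact ⟨hp.1, hp.2.1, hp.2.2.trans hst⟩
  rw [← prod_sdiff hsub]
  have h1 : ∏ p ∈ Pt t \ Pt s, gg p ≤ 1 := by
    apply Finset.prod_le_one
    · intro p hp
      rw [Finset.mem_sdiff, mem_Pt] at hp
      exact (gg_pos hp.1.2.1).le
    · intro p _
      exact gg_le
  have h2 : 0 ≤ ∏ p ∈ Pt s, gg p := by
    apply Finset.prod_nonneg
    intro p hp
    rw [mem_Pt] at hp
    exact (gg_pos hp.2.1).le
  nlinarith

theorem cc_bdd : BddBelow (Set.range cc) := ⟨1 / 2, by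
  rintro _ ⟨t, rfl⟩
  exact cc_low t⟩

theorem C2_le (t : ℕ) : C2 ≤ cc t := ciInf_le cc_bdd t

theorem C2_low : 1 / 2 ≤ C2 := le_ciInf cc_low

theorem cc_le (t : ℕ) : cc t ≤ 1 := by
  unfold cc
  apply Finset.prod_le_one
  · intro p hp
    rw [mem_Pt] at hp
    exact (gg_pos hp.2.1).le
  · intro p _
    exact gg_le

theorem cc_lim : Tendsto cc atTop (𝓝 C2) := tendsto_atTop_ciInf cc_anti cc_bdd

/-- the singular series -/
noncomputable def SHL (n : ℕ) : ℝ := 2 * C2 * ∏ p ∈ n.primeFactors.filter (fun p => 2 < p), hh p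

/-- the large prime factors -/
noncomputable def BB (n t : ℕ) : ℝ := ∏ p ∈ n.primeFactors.filter (fun p => t < p), kk p

theorem SHL_split {n t : ℕ} (hn : n ≠ 0) (ht : 2 ≤ t) : SHL n = 2 * C2 *
    ((∏ p ∈ (Pt t).filter (fun p => p ∣ n), hh p) * ∏ p ∈ n.primeFactors.filter (fun p => t < p), hh p) := by
  unfold SHL
  congr 1
  rw [← prod_union]
  · apply prod_congr _ (fun _ _ => rfl)
    ext p
    rw [mem_filter, mem_union, mem_filter, mem_filter, mem_Pt, Nat.mem_primeFactors]
    constructor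
    · rintro ⟨⟨h1, h2, -⟩, h3⟩
      rcases Nat.lt_or_ge t p with h4 | h4
      · right
        exact ⟨⟨h1, h2, hn⟩, h4⟩
      · left
        exact ⟨⟨h1, h3, h4⟩, h2⟩
    · rintro (⟨⟨h1, h2, h3⟩, h4⟩ | ⟨⟨h1, h2, h3⟩, h4⟩)
      · exact ⟨⟨h1, h4, hn⟩, h2⟩
      · exact ⟨⟨h1, h2, hn⟩, by omega⟩
  · rw [Finset.disjoint_left]
    intro p hp hp'
    rw [mem_filter, mem_Pt] at hp
    rw [mem_filter] at hp'
    omega

theorem hh_prod_ge (s : Finset ℕ) (hs : ∀ p ∈ s, 3 ≤ p) : 1 ≤ ∏ p ∈ s, hh p := by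
  have h := Finset.prod_le_prod (s := s) (f := fun _ => (1 : ℝ)) (g := hh) (fun _ _ => zero_le_one)
    (fun p hp => hh_ge (hs p hp))
  simpa using h

theorem Ss_low {n t : ℕ} (hn : 2 ∣ n) (ht : 2 ≤ t) : 2 * C2 ≤ Ss n t := by
  rw [Ss_eq hn ht]
  have h1 : 1 ≤ ∏ p ∈ (Pt t).filter (fun p => p ∣ n), hh p := by
    apply hh_prod_ge
    intro p hp
    rw [mem_filter, mem_Pt] at hp
    exact hp.1.2.1
  have h2 := C2_le t
  have h3 := C2_low
  nlinarith

theorem SHL_low (n : ℕ) : 2 * C2 ≤ SHL n := by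
  unfold SHL
  have h1 : 1 ≤ ∏ p ∈ n.primeFactors.filter (fun p => 2 < p), hh p := by
    apply hh_prod_ge
    intro p hp
    rw [mem_filter] at hp
    exact hp.2
  have h3 := C2_low
  nlinarith

/-- the upper bound for the truncated series -/
theorem Ss_up {n t : ℕ} (hn0 : n ≠ 0) (hn : 2 ∣ n) (ht : 2 ≤ t) : C2 * Ss n t ≤ cc t * SHL n := by
  rw [Ss_eq hn ht, SHL_split hn0 ht]
  have h1 : 1 ≤ ∏ p ∈ n.primeFactors.filter (fun p => t < p), hh p := by
    apply hh_prod_ge
    intro p hp
    rw [mem_filter] at hp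
    omega
  have h2 : 1 ≤ ∏ p ∈ (Pt t).filter (fun p => p ∣ n), hh p := by
    apply hh_prod_ge
    intro p hp
    rw [mem_filter, mem_Pt] at hp
    exact hp.1.2.1
  have h3 := C2_low
  have h4 := cc_low t
  have h5 : 0 ≤ C2 * cc t * (2 * ∏ p ∈ (Pt t).filter (fun p => p ∣ n), hh p) := by positivity
  calc C2 * (2 * cc t * ∏ p ∈ (Pt t).filter (fun p => p ∣ n), hh p)
      = (C2 * cc t * (2 * ∏ p ∈ (Pt t).filter (fun p => p ∣ n), hh p)) * 1 := by ring
    _ ≤ (C2 * cc t * (2 * ∏ p ∈ (Pt t).filter (fun p => p ∣ n), hh p)) *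
        ∏ p ∈ n.primeFactors.filter (fun p => t < p), hh p := mul_le_mul_of_nonneg_left h1 h5
    _ = _ := by ring

/-- the lower bound for the truncated series -/
theorem Ss_down {n t : ℕ} (hn0 : n ≠ 0) (hn : 2 ∣ n) (ht : 2 ≤ t) : SHL n ≤ BB n t * Ss n t := by
  rw [Ss_eq hn ht, SHL_split hn0 ht]
  have h1 : BB n t = (∏ p ∈ n.primeFactors.filter (fun p => t < p), gg p) *
      ∏ p ∈ n.primeFactors.filter (fun p => t < p), hh p := by
    unfold BB
    rw [← prod_mul_distrib]
    apply prod_congr rfl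
    intro p hp
    rw [mem_filter] at hp
    exact kk_eq (by omega)
  have h2 : C2 ≤ cc t * ∏ p ∈ n.primeFactors.filter (fun p => t < p), gg p := by
    refine (C2_le (t + n)).trans ?_
    have hsub : Pt t ∪ n.primeFactors.filter (fun p => t < p) ⊆ Pt (t + n) := by
      intro p hp
      rw [mem_union, mem_filter, mem_Pt, Nat.mem_primeFactors] at hp
      rw [mem_Pt]
      rcases hp with ⟨h1, h2, h3⟩ | ⟨⟨h1, h2, h3⟩, h4⟩
      · exact ⟨h1, h2, by omega⟩
      · have := Nat.le_of_dvd (by omega) h2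
        exact ⟨h1, by omega, by omega⟩
    have hdis : Disjoint (Pt t) (n.primeFactors.filter (fun p => t < p)) := by
      rw [Finset.disjoint_left]
      intro p hp hp'
      rw [mem_Pt] at hp
      rw [mem_filter] at hp'
      omega
    have h3 : cc (t + n) ≤ ∏ p ∈ Pt t ∪ n.primeFactors.filter (fun p => t < p), gg p := by
      unfold cc
      rw [← prod_sdiff hsub]
      have h4 : ∏ p ∈ Pt (t + n) \ (Pt t ∪ n.primeFactors.filter (fun p => t < p)), gg p ≤ 1 := by
        apply Finset.prod_le_one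
        · intro p hp
          rw [Finset.mem_sdiff, mem_Pt] at hp
          exact (gg_pos hp.1.2.1).le
        · intro p _
          exact gg_le
      have h5 : 0 ≤ ∏ p ∈ Pt t ∪ n.primeFactors.filter (fun p => t < p), gg p := by
        apply Finset.prod_nonneg
        intro p hp
        have := hsub hp
        rw [mem_Pt] at this
        exact (gg_pos this.2.1).le
      nlinarith
    rw [prod_union hdis] at h3
    exact h3
  rw [h1]
  have h6 : 1 ≤ ∏ p ∈ n.primeFactors.filter (fun p => t < p), hh p := by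
    apply hh_prod_ge
    intro p hp
    rw [mem_filter] at hp
    omega
  have h7 : 1 ≤ ∏ p ∈ (Pt t).filter (fun p => p ∣ n), hh p := by
    apply hh_prod_ge
    intro p hp
    rw [mem_filter, mem_Pt] at hp
    exact hp.1.2.1
  have h8 : 0 ≤ 2 * ((∏ p ∈ (Pt t).filter (fun p => p ∣ n), hh p) *
    ∏ p ∈ n.primeFactors.filter (fun p => t < p), hh p) := by positivity
  calc 2 * C2 * ((∏ p ∈ (Pt t).filter (fun p => p ∣ n), hh p) *
      ∏ p ∈ n.primeFactors.filter (fun p => t < p), hh p) = C2 * (2 * ((∏ p ∈ (Pt t).filter (fun p => p ∣ n), hh p) *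
      ∏ p ∈ n.primeFactors.filter (fun p => t < p), hh p)) := by ring
    _ ≤ (cc t * ∏ p ∈ n.primeFactors.filter (fun p => t < p), gg p) *
      (2 * ((∏ p ∈ (Pt t).filter (fun p => p ∣ n), hh p) *
      ∏ p ∈ n.primeFactors.filter (fun p => t < p), hh p)) := mul_le_mul_of_nonneg_right h2 h8
    _ = _ := by ring

/-- multiples of all small primes -/
theorem Ss_special {n t : ℕ} (h : ∀ p, p.Prime → p ≤ t → p ∣ n) : Ss n t = W t := by
  unfold Ss
  rw [W_eq]
  apply prod_congr rfl
  intro p hp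
  rw [mem_Pr] at hp
  exact lf_dvd hp.1 (h p hp.1 hp.2)

theorem W_mono {s t : ℕ} (h : s ≤ t) : W s ≤ W t := by
  have hsub : Pr s ⊆ Pr t := by
    intro p hp
    rw [mem_Pr] at hp ⊢
    exact ⟨hp.1, hp.2.trans h⟩
  rw [W_eq t, ← prod_sdiff hsub, ← W_eq s]
  have h1 : 1 ≤ ∏ p ∈ Pr t \ Pr s, (1 - 1 / (p : ℝ))⁻¹ := by
    have h2 := Finset.prod_le_prod (s := Pr t \ Pr s) (f := fun _ => (1 : ℝ))
      (g := fun p : ℕ => (1 - 1 / (p : ℝ))⁻¹) (fun _ _ => zero_le_one)
      (fun p hp => by
        rw [Finset.mem_sdiff, mem_Pr] at hp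
        exact kk_ge hp.1.1.two_le)
    simpa using h2
  have := W_pos s
  nlinarith

/-- the large prime factors do not matter -/
theorem BB_up {n t z : ℕ} (hn : n ≠ 0) (htz : t ≤ z) (hz : 1 ≤ z) :
    BB n t ≤ W z / W t * Real.exp (2 * (Real.log n / Real.log 2) / z) := by
  have hz0 : (0 : ℝ) < z := by exact_mod_cast hz
  have h1 : BB n t = (∏ p ∈ n.primeFactors.filter (fun p => t < p ∧ p ≤ z), kk p) *
      ∏ p ∈ n.primeFactors.filter (fun p => z < p), kk p := by
    unfold BB
    rw [← prod_union]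
    · apply prod_congr _ (fun _ _ => rfl)
      ext p
      rw [mem_union, mem_filter, mem_filter, mem_filter]
      constructor
      · rintro ⟨h1, h2⟩
        rcases Nat.lt_or_ge z p with h4 | h4
        · right
          exact ⟨h1, h4⟩
        · left
          exact ⟨h1, h2, h4⟩
      · rintro (⟨h1, h2, h3⟩ | ⟨h1, h2⟩)
        · exact ⟨h1, h2⟩
        · exact ⟨h1, by omega⟩
    · rw [Finset.disjoint_left]
      intro p hp hp'
      rw [mem_filter] at hp hp'
      omega
  have hsub : Pr t ⊆ Pr z := by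
    intro p hp
    rw [mem_Pr] at hp ⊢
    exact ⟨hp.1, hp.2.trans htz⟩
  have h2 : ∏ p ∈ n.primeFactors.filter (fun p => t < p ∧ p ≤ z), kk p ≤ W z / W t := by
    rw [le_div_iff₀ (W_pos t), W_eq z, ← prod_sdiff hsub, ← W_eq t]
    apply mul_le_mul_of_nonneg_right _ (W_pos t).le
    have hs : n.primeFactors.filter (fun p => t < p ∧ p ≤ z) ⊆ Pr z \ Pr t := by
      intro p hp
      rw [mem_filter, Nat.mem_primeFactors] at hp
      rw [Finset.mem_sdiff, mem_Pr, mem_Pr]
      exact ⟨⟨hp.1.1, hp.2.2⟩, fun h => by omega⟩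
    rw [← prod_sdiff hs]
    have h3 : 1 ≤ ∏ p ∈ (Pr z \ Pr t) \ n.primeFactors.filter (fun p => t < p ∧ p ≤ z), (1 - 1 / (p : ℝ))⁻¹ := by
      have h4 := Finset.prod_le_prod (s := (Pr z \ Pr t) \ n.primeFactors.filter (fun p => t < p ∧ p ≤ z))
        (f := fun _ => (1 : ℝ)) (g := fun p : ℕ => (1 - 1 / (p : ℝ))⁻¹) (fun _ _ => zero_le_one)
        (fun p hp => by
          rw [Finset.mem_sdiff, Finset.mem_sdiff, mem_Pr] at hp
          exact kk_ge hp.1.1.1.two_le)
      simpa using h4
    have h5 : 0 ≤ ∏ p ∈ n.primeFactors.filter (fun p => t < p ∧ p ≤ z), kk p := by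
      apply Finset.prod_nonneg
      intro p hp
      rw [mem_filter, Nat.mem_primeFactors] at hp
      exact zero_le_one.trans (kk_ge hp.1.1.two_le)
    have h6 : ∏ p ∈ n.primeFactors.filter (fun p => t < p ∧ p ≤ z), (1 - 1 / (p : ℝ))⁻¹ =
      ∏ p ∈ n.primeFactors.filter (fun p => t < p ∧ p ≤ z), kk p := rfl
    rw [h6]
    nlinarith
  have h3 : ∏ p ∈ n.primeFactors.filter (fun p => z < p), kk p ≤
      Real.exp (2 * (Real.log n / Real.log 2) / z) := by
    have h4 : ∀ p ∈ n.primeFactors.filter (fun p => z < p), kk p ≤ Real.exp (2 / z) := by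
      intro p hp
      rw [mem_filter, Nat.mem_primeFactors] at hp
      have hp2 : (2 : ℝ) ≤ p := by exact_mod_cast hp.1.1.two_le
      have hpz : (z : ℝ) < p := by exact_mod_cast hp.2
      have h5 : kk p = 1 / ((p : ℝ) - 1) + 1 := by
        have h6 : (p : ℝ) - 1 ≠ 0 := by
          have : 0 < (p : ℝ) - 1 := by linarith
          exact this.ne'
        unfold kk
        have : 1 - 1 / (p : ℝ) = (p - 1) / p := by field_simp
        rw [this, inv_div]
        field_simp
        ring
      rw [h5]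
      refine (Real.add_one_le_exp _).trans ?_
      apply Real.exp_le_exp.2
      rw [div_le_div_iff₀ (by linarith) hz0]
      linarith
    have h5 : ∏ p ∈ n.primeFactors.filter (fun p => z < p), kk p ≤
        ∏ p ∈ n.primeFactors.filter (fun p => z < p), Real.exp (2 / z) := by
      apply Finset.prod_le_prod _ h4
      intro p hp
      rw [mem_filter, Nat.mem_primeFactors] at hp
      exact zero_le_one.trans (kk_ge hp.1.1.two_le)
    refine h5.trans ?_
    rw [prod_const, ← Real.exp_nat_mul]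
    apply Real.exp_le_exp.2
    have h6 : ((n.primeFactors.filter (fun p => z < p)).card : ℝ) ≤ Real.log n / Real.log 2 := by
      rw [le_div_iff₀ (Real.log_pos (by norm_num))]
      have h7 : 2 ^ (n.primeFactors.filter (fun p => z < p)).card ≤ n := by
        calc 2 ^ (n.primeFactors.filter (fun p => z < p)).card ≤ 2 ^ n.primeFactors.card :=
              Nat.pow_le_pow_right (by norm_num) (card_filter_le _ _)
          _ ≤ ∏ p ∈ n.primeFactors, p := by
              apply Finset.pow_card_le_prod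
              intro p hp
              exact (Nat.prime_of_mem_primeFactors hp).two_le
          _ ≤ n := Nat.le_of_dvd (by omega) (Nat.prod_primeFactors_dvd n)
      have h8 : (2 : ℝ) ^ (n.primeFactors.filter (fun p => z < p)).card ≤ n := by exact_mod_cast h7
      have h9 := Real.log_le_log (by positivity) h8
      rwa [Real.log_pow] at h9
    calc ((n.primeFactors.filter (fun p => z < p)).card : ℝ) * (2 / z)
        ≤ (Real.log n / Real.log 2) * (2 / z) := by gcongr
      _ = _ := by ring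
  rw [h1]
  apply mul_le_mul h2 h3
  · apply Finset.prod_nonneg
    intro p hp
    rw [mem_filter, Nat.mem_primeFactors] at hp
    exact zero_le_one.trans (kk_ge hp.1.1.two_le)
  · exact div_nonneg (W_pos z).le (W_pos t).le

end Pool.Agent.U839.Gb
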