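import Mathlib
import Pool.Agent.U839.Gb.Nt

set_option autoImplicit false

/-! # The expected number of representations -/

open MeasureTheory ProbabilityTheory Filter Finset Topology

namespace Pool.Agent.U839.Gb

open Pool.Agent.U839.Sv (Pr mem_Pr W W_eq W_pos one_sub_pos fT fT_nonneg Sieved law' T_small)
open Pool.Agent.U839.Thin (tlog)

variable {Ω : Type*} [MeasurableSpace Ω] {μ : Measure Ω} [IsProbabilityMeasure μ]

/-- the expected number of pairs -/
noncomputable def MM (μ : Measure Ω) (E : ℕ → Set Ω) (m : ℕ) : ℝ :=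
  ∑ a ∈ range m, μ.real (E a) * μ.real (E (2 * m - a))

theorem exists_b (ε : ℝ) (hε : 0 < ε) : ∃ b₀ : ℕ, (1 / 2 : ℝ) ^ b₀ ≤ ε := by
  obtain ⟨b, hb⟩ := exists_pow_lt_of_lt_one hε (show (1 / 2 : ℝ) < 1 by norm_num)
  exact ⟨b, hb.le⟩

theorem err_small (T : ℕ → ℕ) (hT : Monotone T)
    (hTs : ∀ ε : ℝ, 0 < ε → ∀ᶠ n : ℕ in atTop, (T n : ℝ) ≤ (n : ℝ) ^ ε) (K : ℝ) (D : ℕ)
    (ε : ℝ) (hε : 0 < ε) : ∀ᶠ m : ℕ in atTop, K * ((T (2 * m) : ℝ) + 2) ^ D ≤ ε * m := by
  have e2 : ∀ᶠ m : ℕ in atTop, K / ε ≤ (m : ℝ) ^ (1 / 2 : ℝ) :=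
    ((tendsto_rpow_atTop (by norm_num)).comp tendsto_natCast_atTop_atTop).eventually_ge_atTop _
  filter_upwards [T_small T hTs (D + 1) (by omega) (1 / 2) (by norm_num), e2, eventually_ge_atTop 1] with m g1 g2 g3
  have hm0 : (0 : ℝ) < m := by exact_mod_cast g3
  have h1 : (T (2 * m) : ℝ) ≤ T (3 * m) := by exact_mod_cast hT (by omega)
  have h0 : (0 : ℝ) ≤ T (2 * m) := Nat.cast_nonneg _
  have h2 : ((T (2 * m) : ℝ) + 2) ^ D ≤ (m : ℝ) ^ (1 / 2 : ℝ) := by
    refine le_trans ?_ g1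
    calc ((T (2 * m) : ℝ) + 2) ^ D ≤ ((T (3 * m) : ℝ) + 2) ^ D := by gcongr
      _ ≤ ((T (3 * m) : ℝ) + 2) ^ (D + 1) := by
          apply pow_le_pow_right₀
          · linarith
          · omega
  have h3 : (m : ℝ) ^ (1 / 2 : ℝ) * (m : ℝ) ^ (1 / 2 : ℝ) = m := by
    rw [← Real.rpow_add hm0]
    norm_num
  have h4 : 0 ≤ (m : ℝ) ^ (1 / 2 : ℝ) := by positivity
  rw [div_le_iff₀ hε] at g2
  calc K * ((T (2 * m) : ℝ) + 2) ^ D ≤ ((m : ℝ) ^ (1 / 2 : ℝ) * ε) * (m : ℝ) ^ (1 / 2 : ℝ) := by gcongr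
    _ = ε * ((m : ℝ) ^ (1 / 2 : ℝ) * (m : ℝ) ^ (1 / 2 : ℝ)) := by ring
    _ = ε * m := by rw [h3]

theorem sqrt_small (ε : ℝ) (hε : 0 < ε) : ∀ᶠ m : ℕ in atTop, (Nat.sqrt m : ℝ) + 1 ≤ ε * m := by
  filter_upwards [tendsto_natCast_atTop_atTop.eventually_ge_atTop (4 / ε ^ 2), eventually_ge_atTop 1,
    tendsto_natCast_atTop_atTop.eventually_ge_atTop (2 / ε)] with m g1 g2 g3
  have h1 : ((Nat.sqrt m : ℝ)) ^ 2 ≤ m := by exact_mod_cast Nat.sqrt_le' m
  have h0 : (0 : ℝ) ≤ Nat.sqrt m := Nat.cast_nonneg _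
  have hm0 : (0 : ℝ) < m := by exact_mod_cast g2
  rw [div_le_iff₀ hε] at g3
  rw [div_le_iff₀ (by positivity)] at g1
  have h2 : (Nat.sqrt m : ℝ) ≤ ε / 2 * m := by
    have h3 : (Nat.sqrt m : ℝ) ^ 2 ≤ (ε / 2 * m) ^ 2 := by
      refine h1.trans ?_
      nlinarith
    exact (pow_le_pow_iff_left₀ h0 (by positivity) (by norm_num)).1 h3
  nlinarith

omit [IsProbabilityMeasure μ] in
theorem MM_nonneg (E : ℕ → Set Ω) (m : ℕ) : 0 ≤ MM μ E m :=
  sum_nonneg (fun _ _ => mul_nonneg measureReal_nonneg measureReal_nonneg)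

/-- lower bound for the expectation -/
theorem mean_low (T : ℕ → ℕ) (hT : Monotone T)
    (hTs : ∀ ε : ℝ, 0 < ε → ∀ᶠ n : ℕ in atTop, (T n : ℝ) ≤ (n : ℝ) ^ ε)
    {E : ℕ → Set Ω} (hE : Sieved μ E T) (ε : ℝ) (hε : 0 < ε) (hε1 : ε ≤ 1) :
    ∀ᶠ m : ℕ in atTop, ∀ S : ℝ, 0 ≤ S → (∀ a ∈ Ioc (Nat.sqrt m) (m - 1), S ≤ Ss (2 * m) (T a)) →
      ((1 - ε) * S - ε) * (m / (Real.log (2 * m : ℕ)) ^ 2) ≤ MM μ E m := by
  obtain ⟨b₀, hb₀⟩ := exists_b (ε / 2) (by linarith)
  obtain ⟨K, D, hK, H⟩ := sumF b₀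
  obtain ⟨a₀, ha₀⟩ := eventually_atTop.1 (law' hE hTs)
  filter_upwards [err_small T hT hTs K D ε hε, sqrt_small (ε / 2) (by linarith),
    eventually_ge_atTop ((a₀ + 2) ^ 2)] with m g1 g2 g3 S hS hSa
  obtain ⟨q, hq⟩ : ∃ q, q = Nat.sqrt m := ⟨_, rfl⟩
  have hq2 : a₀ + 2 ≤ q := by
    rw [hq, Nat.le_sqrt']
    exact g3
  have hqm : q * q ≤ m := by
    rw [hq]
    exact Nat.sqrt_le m
  have hqm1 : q ≤ m - 1 := by
    have : 2 * q ≤ q * q := Nat.mul_le_mul_right q (by omega)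
    omega
  rw [← hq] at hSa g2
  obtain ⟨L, hL⟩ : ∃ L, L = Real.log (2 * m : ℕ) := ⟨_, rfl⟩
  have hm1 : 1 ≤ m := by omega
  have hm0 : (0 : ℝ) < m := by exact_mod_cast hm1
  rw [← hL]
  have hL0 : 0 < L := by
    rw [hL]
    apply Real.log_pos
    exact_mod_cast (by omega : 1 < 2 * m)
  have h1 := (abs_le.1 (H T hT (2 * m) q (m - 1) hqm1 (by omega) (by omega))).1
  have h2 : ((m : ℝ) - 1 - q) * S ≤ ∑ a ∈ Ioc q (m - 1), Ss (2 * m) (T a) := by
    have h3 := Finset.card_nsmul_le_sum (Ioc q (m - 1)) (fun a => Ss (2 * m) (T a)) S hSa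
    rw [Nat.card_Ioc, nsmul_eq_mul, Nat.cast_sub hqm1, Nat.cast_sub hm1, Nat.cast_one] at h3
    exact h3
  have h4 : (∑ a ∈ Ioc q (m - 1), fT T a * fT T (2 * m - a)) / L ^ 2 ≤ MM μ E m := by
    have hsub : Ioc q (m - 1) ⊆ range m := by
      intro a ha
      rw [mem_Ioc] at ha
      rw [mem_range]
      omega
    unfold MM
    refine le_trans ?_ (sum_le_sum_of_subset_of_nonneg hsub
      (fun _ _ _ => mul_nonneg measureReal_nonneg measureReal_nonneg))
    rw [sum_div]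
    apply sum_le_sum
    intro a ha
    rw [mem_Ioc] at ha
    have k1 : (1 : ℝ) < a := by exact_mod_cast (by omega : 1 < a)
    have k2 : (1 : ℝ) < ((2 * m - a : ℕ) : ℝ) := by exact_mod_cast (by omega : 1 < 2 * m - a)
    have k3 : Real.log a ≤ L := by
      rw [hL]
      apply Real.log_le_log (by linarith)
      exact_mod_cast (by omega : a ≤ 2 * m)
    have k4 : Real.log ((2 * m - a : ℕ) : ℝ) ≤ L := by
      rw [hL]
      apply Real.log_le_log (by linarith)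
      exact_mod_cast (by omega : 2 * m - a ≤ 2 * m)
    have k5 := Real.log_pos k1
    have k6 := Real.log_pos k2
    rw [ha₀ a (by omega), ha₀ (2 * m - a) (by omega), div_mul_div_comm]
    apply div_le_div_of_nonneg_left (mul_nonneg (fT_nonneg T _) (fT_nonneg T _)) (by positivity)
    nlinarith
  refine le_trans ?_ h4
  have hL2 : 0 ≤ L ^ 2 := by positivity
  rw [← mul_div_assoc]
  refine div_le_div_of_nonneg_right ?_ hL2
  have hsm : 0 ≤ ∑ a ∈ Ioc q (m - 1), Ss (2 * m) (T a) := sum_nonneg (fun _ _ => Ss_nonneg _ _)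
  have h5 : (1 / 2 : ℝ) ^ b₀ * ∑ a ∈ Ioc q (m - 1), Ss (2 * m) (T a) ≤
      ε / 2 * ∑ a ∈ Ioc q (m - 1), Ss (2 * m) (T a) := by gcongr
  have h6 : (1 - ε / 2) * m * S ≤ ∑ a ∈ Ioc q (m - 1), Ss (2 * m) (T a) := by
    refine le_trans ?_ h2
    apply mul_le_mul_of_nonneg_right _ hS
    linarith
  have h7 : (1 - ε) * S * m ≤ (1 - ε / 2) * ((1 - ε / 2) * m * S) := by
    have : 0 ≤ m * S * (ε / 2) ^ 2 := by positivity
    nlinarith
  have h8 : (1 - ε / 2) * ((1 - ε / 2) * m * S) ≤ (1 - ε / 2) * ∑ a ∈ Ioc q (m - 1), Ss (2 * m) (T a) :=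
    mul_le_mul_of_nonneg_left h6 (by linarith)
  linarith

set_option maxHeartbeats 4000000 in
/-- upper bound for the expectation -/
theorem mean_up (T : ℕ → ℕ) (hT : Monotone T)
    (hTs : ∀ ε : ℝ, 0 < ε → ∀ᶠ n : ℕ in atTop, (T n : ℝ) ≤ (n : ℝ) ^ ε) (hTi : Tendsto T atTop atTop)
    {E : ℕ → Set Ω} (hE : Sieved μ E T) (ε : ℝ) (hε : 0 < ε) (hε1 : ε ≤ 1 / 2) :
    ∀ᶠ m : ℕ in atTop, ∀ S : ℝ, 0 ≤ S → (∀ a ∈ Ioc ⌊ε * m⌋₊ (m - 1), Ss (2 * m) (T a) ≤ S) →
      MM μ E m ≤ ((1 + ε) * S + 40 * ε * SHL (2 * m)) * (m / (Real.log (2 * m : ℕ)) ^ 2) := by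
  obtain ⟨b₀, hb₀⟩ := exists_b (ε / 4) (by linarith)
  obtain ⟨K, D, hK, H⟩ := sumF b₀
  obtain ⟨a₀, ha₀⟩ := eventually_atTop.1 ((law' hE hTs).and (hTi.eventually_ge_atTop 2))
  have elog : ∀ᶠ m : ℕ in atTop, (Nat.sqrt m : ℝ) + 1 ≤ ε * (m / (Real.log (2 * m : ℕ)) ^ 2) := by
    filter_upwards [Pool.Agent.U839.Sv.log_sq_small (16 / ε) (1 / 2) (by positivity) (by norm_num),
      eventually_ge_atTop 2] with m g1 g2
    have hm2 : (2 : ℝ) ≤ m := by exact_mod_cast g2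
    have hm0 : (0 : ℝ) < m := by linarith
    have h1 : Real.log (2 * m : ℕ) ≤ 2 * Real.log m := by
      push_cast
      rw [Real.log_mul (by norm_num) hm0.ne']
      have := Real.log_le_log (by norm_num) hm2
      linarith
    have h2 : 0 < Real.log (2 * m : ℕ) := by
      apply Real.log_pos
      exact_mod_cast (by omega : 1 < 2 * m)
    have h3 : (Real.log (2 * m : ℕ)) ^ 2 ≤ (2 * Real.log m) ^ 2 := pow_le_pow_left₀ h2.le h1 2
    have h4 : ((Nat.sqrt m : ℝ)) ^ 2 ≤ m := by exact_mod_cast Nat.sqrt_le' m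
    have h5 : (m : ℝ) ^ (1 / 2 : ℝ) * (m : ℝ) ^ (1 / 2 : ℝ) = m := by
      rw [← Real.rpow_add hm0]
      norm_num
    obtain ⟨s, hs⟩ : ∃ s, s = (m : ℝ) ^ (1 / 2 : ℝ) := ⟨_, rfl⟩
    have hs0 : 0 ≤ s := by
      rw [hs]
      positivity
    rw [← hs] at g1 h5
    have h6 : (Nat.sqrt m : ℝ) ≤ s := by
      have h7 : ((Nat.sqrt m : ℝ)) ^ 2 ≤ s ^ 2 := by
        rw [pow_two s, h5]
        exact h4
      exact (pow_le_pow_iff_left₀ (Nat.cast_nonneg _) hs0 (by norm_num)).1 h7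
    have hlogm : 0 ≤ Real.log m := Real.log_natCast_nonneg m
    have h8 : 1 ≤ s := by
      have : 0 ≤ 16 / ε * (Real.log m) ^ 2 := by positivity
      linarith
    have h9 : 16 * (Real.log m) ^ 2 ≤ ε * s := by
      have h10 : 16 / ε * (Real.log m) ^ 2 ≤ s := by linarith
      calc 16 * (Real.log m) ^ 2 = ε * (16 / ε * (Real.log m) ^ 2) := by field_simp
        _ ≤ ε * s := by gcongr
    rw [← mul_div_assoc, le_div_iff₀ (by positivity)]
    have h11 : ((Nat.sqrt m : ℝ) + 1) * (Real.log (2 * m : ℕ)) ^ 2 ≤ (2 * s) * (4 * (Real.log m) ^ 2) := by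
      apply mul_le_mul (by linarith) (by linarith) (by positivity) (by positivity)
    nlinarith
  filter_upwards [err_small T hT hTs K D ε hε, sqrt_small (ε / 2) (by linarith),
    eventually_ge_atTop ((a₀ + 2) ^ 2), elog, tlog.eventually_ge_atTop (16 / ε * (Real.log 2 - Real.log ε) + 2),
    sqrt_small (ε / 2) (by linarith), tendsto_natCast_atTop_atTop.eventually_ge_atTop (4 : ℝ)]
    with m g1 g2 g3 g4 g5 g6 g7 S hS hSa
  obtain ⟨q, hq⟩ : ∃ q, q = Nat.sqrt m := ⟨_, rfl⟩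
  have hq2 : a₀ + 2 ≤ q := by
    rw [hq, Nat.le_sqrt']
    exact g3
  have hqm : q * q ≤ m := by
    rw [hq]
    exact Nat.sqrt_le m
  rw [← hq] at g2 g4 g6
  obtain ⟨f, hf⟩ : ∃ f, f = ⌊ε * m⌋₊ := ⟨_, rfl⟩
  rw [← hf] at hSa
  have hq2m : 2 * q ≤ q * q := Nat.mul_le_mul_right q (by omega)
  have hm1 : 1 ≤ m := by omega
  have hm0 : (0 : ℝ) < m := by exact_mod_cast hm1
  have hf1 : (f : ℝ) ≤ ε * m := by
    rw [hf]
    exact Nat.floor_le (by positivity)
  have hf2 : ε * m < f + 1 := by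
    rw [hf]
    exact Nat.lt_floor_add_one _
  have hqf : q ≤ f := by
    rw [hf]
    apply Nat.le_floor
    nlinarith
  have hfm : f ≤ m - 1 := by
    have : (f : ℝ) ≤ ((m - 1 : ℕ) : ℝ) := by
      rw [Nat.cast_sub hm1, Nat.cast_one]
      nlinarith
    exact_mod_cast this
  obtain ⟨L, hL⟩ : ∃ L, L = Real.log (2 * m : ℕ) := ⟨_, rfl⟩
  have hLm : L = Real.log 2 + Real.log m := by
    rw [hL]
    push_cast
    rw [Real.log_mul (by norm_num) hm0.ne']
  have hl2 := Real.log_two_lt_d9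
  have hl2' := Real.log_two_gt_d9
  have hle : Real.log ε < 0 := Real.log_neg hε (by linarith)
  have hlogm2 : 2 ≤ Real.log m := by
    have : 0 ≤ 16 / ε * (Real.log 2 - Real.log ε) := by
      apply mul_nonneg (by positivity)
      linarith
    linarith
  have hL0 : 0 < L := by linarith
  rw [← hL] at g4 ⊢
  obtain ⟨SH, hSH⟩ : ∃ SH, SH = SHL (2 * m) := ⟨_, rfl⟩
  rw [← hSH]
  have hSH1 : 1 ≤ SH := by
    have h1 := SHL_low (2 * m)
    have h2 := C2_low
    rw [hSH]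
    linarith
  -- the three sums
  have hsplit : MM μ E m = ∑ a ∈ range (q + 1), μ.real (E a) * μ.real (E (2 * m - a)) +
      ∑ a ∈ Ioc q f, μ.real (E a) * μ.real (E (2 * m - a)) +
      ∑ a ∈ Ioc f (m - 1), μ.real (E a) * μ.real (E (2 * m - a)) := by
    unfold MM
    rw [← sum_union, ← sum_union]
    · apply sum_congr _ (fun _ _ => rfl)
      ext a
      rw [mem_union, mem_union, mem_range, mem_range, mem_Ioc, mem_Ioc]
      omega
    · rw [Finset.disjoint_left]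
      intro a ha ha'
      rw [mem_union, mem_range, mem_Ioc] at ha
      rw [mem_Ioc] at ha'
      omega
    · rw [Finset.disjoint_left]
      intro a ha ha'
      rw [mem_range] at ha
      rw [mem_Ioc] at ha'
      omega
  have p1 : ∑ a ∈ range (q + 1), μ.real (E a) * μ.real (E (2 * m - a)) ≤ ε * (m / L ^ 2) := by
    have h1 : ∑ a ∈ range (q + 1), μ.real (E a) * μ.real (E (2 * m - a)) ≤
        ∑ a ∈ range (q + 1), (1 : ℝ) := by
      apply sum_le_sum
      intro a _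
      have h2 : μ.real (E a) ≤ 1 := measureReal_le_one
      have h3 : μ.real (E (2 * m - a)) ≤ 1 := measureReal_le_one
      have h4 : 0 ≤ μ.real (E a) := measureReal_nonneg
      have h5 : 0 ≤ μ.real (E (2 * m - a)) := measureReal_nonneg
      nlinarith
    rw [sum_const, card_range, nsmul_eq_mul, mul_one] at h1
    push_cast at h1
    linarith
  have hlow : ∀ a b : ℕ, ∀ c : ℝ, 0 < c → q < a → a ≤ m - 1 → b = 2 * m - a →
      c * L ^ 2 ≤ Real.log a * Real.log b →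
      μ.real (E a) * μ.real (E b) ≤ 1 / c / L ^ 2 * (fT T a * fT T b) := by
    intro a b c hc ha ham hb hcl
    have k1 : (1 : ℝ) < a := by exact_mod_cast (by omega : 1 < a)
    have k2 : (1 : ℝ) < b := by exact_mod_cast (by omega : 1 < b)
    have k5 := Real.log_pos k1
    have k6 := Real.log_pos k2
    rw [(ha₀ a (by omega)).1, (ha₀ b (by omega)).1, div_mul_div_comm]
    have k7 := mul_nonneg (fT_nonneg T a) (fT_nonneg T b)
    calc fT T a * fT T b / (Real.log a * Real.log b) ≤ fT T a * fT T b / (c * L ^ 2) :=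
          div_le_div_of_nonneg_left k7 (by positivity) hcl
      _ = 1 / c / L ^ 2 * (fT T a * fT T b) := by field_simp
  have hlogb : ∀ a : ℕ, a ≤ m - 1 → Real.log m ≤ Real.log ((2 * m - a : ℕ) : ℝ) := by
    intro a ha
    apply Real.log_le_log hm0
    exact_mod_cast (by omega : m ≤ 2 * m - a)
  have p2 : ∑ a ∈ Ioc q f, μ.real (E a) * μ.real (E (2 * m - a)) ≤ 30 * ε * SH * (m / L ^ 2) := by
    have h1 := (abs_le.1 (H T hT (2 * m) q f hqf (by omega) (by omega))).2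
    have h2 : ∑ a ∈ Ioc q f, Ss (2 * m) (T a) ≤ (ε * m) * (2 * SH) := by
      have h3 : ∀ a ∈ Ioc q f, Ss (2 * m) (T a) ≤ 2 * SH := by
        intro a ha
        rw [mem_Ioc] at ha
        have k1 := Ss_up (n := 2 * m) (t := T a) (by omega) ⟨m, rfl⟩ (ha₀ a (by omega)).2
        rw [← hSH] at k1
        have k2 := cc_le (T a)
        have k3 := C2_low
        have k4 := Ss_nonneg (2 * m) (T a)
        nlinarith
      have h4 := Finset.sum_le_card_nsmul (Ioc q f) (fun a => Ss (2 * m) (T a)) (2 * SH) h3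
      rw [Nat.card_Ioc, nsmul_eq_mul] at h4
      refine h4.trans ?_
      apply mul_le_mul_of_nonneg_right _ (by linarith)
      refine le_trans ?_ hf1
      exact_mod_cast Nat.sub_le f q
    have h5 : (1 / 2 : ℝ) ^ b₀ * ∑ a ∈ Ioc q f, Ss (2 * m) (T a) ≤ 1 * ∑ a ∈ Ioc q f, Ss (2 * m) (T a) := by
      apply mul_le_mul_of_nonneg_right _ (sum_nonneg (fun _ _ => Ss_nonneg _ _))
      linarith
    have h6 : ∑ a ∈ Ioc q f, μ.real (E a) * μ.real (E (2 * m - a)) ≤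
        1 / (1 / 6) / L ^ 2 * ∑ a ∈ Ioc q f, fT T a * fT T (2 * m - a) := by
      rw [mul_sum]
      apply sum_le_sum
      intro a ha
      rw [mem_Ioc] at ha
      apply hlow a (2 * m - a) (1 / 6) (by norm_num) ha.1 (by omega) rfl
      have k1 : 1 / 2 * Real.log m ≤ Real.log a := by
        have k2 : m ≤ a ^ 2 := by
          have k3 : m < (q + 1) * (q + 1) := by
            rw [hq]
            exact Nat.lt_succ_sqrt m
          have k4 : (q + 1) * (q + 1) ≤ a * a := Nat.mul_le_mul (by omega) (by omega)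
          rw [pow_two]
          omega
        have k3 : (m : ℝ) ≤ (a : ℝ) ^ 2 := by exact_mod_cast k2
        have k4 := Real.log_le_log hm0 k3
        rw [Real.log_pow] at k4
        push_cast at k4
        linarith
      have k2 := hlogb a (by omega)
      have k5 : (1 / 2 * Real.log m) * Real.log m ≤ Real.log a * Real.log ((2 * m - a : ℕ) : ℝ) := by
        apply mul_le_mul k1 k2 (by linarith) (by linarith)
      refine le_trans ?_ k5
      have k6 : L ≤ 3 / 2 * Real.log m := by linarith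
      nlinarith
    refine h6.trans ?_
    have h7 : ∑ a ∈ Ioc q f, fT T a * fT T (2 * m - a) ≤ 5 * ε * SH * m := by
      have : ε * m ≤ ε * m * SH := by
        have : 0 ≤ ε * m := by positivity
        nlinarith
      linarith
    calc 1 / (1 / 6) / L ^ 2 * ∑ a ∈ Ioc q f, fT T a * fT T (2 * m - a) ≤
        1 / (1 / 6) / L ^ 2 * (5 * ε * SH * m) := by gcongr
      _ = 30 * ε * SH * (m / L ^ 2) := by ring
  have p3 : ∑ a ∈ Ioc f (m - 1), μ.real (E a) * μ.real (E (2 * m - a)) ≤ ((1 + ε) * S + 2 * ε) * (m / L ^ 2) := by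
    have h1 := (abs_le.1 (H T hT (2 * m) f (m - 1) hfm (by omega) (by omega))).2
    have h2 : ∑ a ∈ Ioc f (m - 1), Ss (2 * m) (T a) ≤ m * S := by
      have h4 := Finset.sum_le_card_nsmul (Ioc f (m - 1)) (fun a => Ss (2 * m) (T a)) S hSa
      rw [Nat.card_Ioc, nsmul_eq_mul] at h4
      refine h4.trans ?_
      apply mul_le_mul_of_nonneg_right _ hS
      exact_mod_cast (by omega : m - 1 - f ≤ m)
    have h5 : (1 / 2 : ℝ) ^ b₀ * ∑ a ∈ Ioc f (m - 1), Ss (2 * m) (T a) ≤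
        ε / 4 * ∑ a ∈ Ioc f (m - 1), Ss (2 * m) (T a) := by
      apply mul_le_mul_of_nonneg_right hb₀ (sum_nonneg (fun _ _ => Ss_nonneg _ _))
    have h6 : ∑ a ∈ Ioc f (m - 1), μ.real (E a) * μ.real (E (2 * m - a)) ≤
        1 / (1 - ε / 16) ^ 2 / L ^ 2 * ∑ a ∈ Ioc f (m - 1), fT T a * fT T (2 * m - a) := by
      rw [mul_sum]
      apply sum_le_sum
      intro a ha
      rw [mem_Ioc] at ha
      have hε16 : 0 < 1 - ε / 16 := by linarith
      apply hlow a (2 * m - a) ((1 - ε / 16) ^ 2) (by positivity) (by omega) (by omega) rfl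
      have k0 : (Real.log 2 - Real.log ε) ≤ ε / 16 * L := by
        have k1 : 16 / ε * (Real.log 2 - Real.log ε) ≤ L := by linarith
        calc Real.log 2 - Real.log ε = ε / 16 * (16 / ε * (Real.log 2 - Real.log ε)) := by field_simp
          _ ≤ ε / 16 * L := by gcongr
      have k1 : (1 - ε / 16) * L ≤ Real.log a := by
        have k2 : ε * m ≤ a := by
          have : ((f + 1 : ℕ) : ℝ) ≤ a := by exact_mod_cast ha.1
          push_cast at this
          linarith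
        have k3 := Real.log_le_log (by positivity) k2
        rw [Real.log_mul hε.ne' hm0.ne'] at k3
        linarith
      have k2 : (1 - ε / 16) * L ≤ Real.log ((2 * m - a : ℕ) : ℝ) := by
        have := hlogb a (by omega)
        linarith
      have k3 : 0 ≤ (1 - ε / 16) * L := by positivity
      calc (1 - ε / 16) ^ 2 * L ^ 2 = ((1 - ε / 16) * L) * ((1 - ε / 16) * L) := by ring
        _ ≤ _ := mul_le_mul k1 k2 k3 (k3.trans k1)
    refine h6.trans ?_
    have h7 : 1 / (1 - ε / 16) ^ 2 ≤ 1 + ε / 4 := by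
      rw [div_le_iff₀ (by nlinarith)]
      nlinarith [mul_pos hε hε, mul_pos (mul_pos hε hε) hε]
    have h8 : ∑ a ∈ Ioc f (m - 1), fT T a * fT T (2 * m - a) ≤ (1 + ε / 4) * (m * S) + ε * m := by
      have : ε / 4 * ∑ a ∈ Ioc f (m - 1), Ss (2 * m) (T a) ≤ ε / 4 * (m * S) := by gcongr
      linarith
    have h9 : 0 ≤ (1 + ε / 4) * (m * S) + ε * m := by positivity
    calc 1 / (1 - ε / 16) ^ 2 / L ^ 2 * ∑ a ∈ Ioc f (m - 1), fT T a * fT T (2 * m - a)
        ≤ (1 + ε / 4) / L ^ 2 * ((1 + ε / 4) * (m * S) + ε * m) := by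
          apply mul_le_mul _ h8 (sum_nonneg (fun _ _ => mul_nonneg (fT_nonneg T _) (fT_nonneg T _))) (by positivity)
          apply div_le_div_of_nonneg_right h7 (by positivity)
      _ = ((1 + ε / 4) ^ 2 * S + (1 + ε / 4) * ε) * (m / L ^ 2) := by ring
      _ ≤ ((1 + ε) * S + 2 * ε) * (m / L ^ 2) := by
          apply mul_le_mul_of_nonneg_right _ (by positivity)
          have k1 : (1 + ε / 4) ^ 2 ≤ 1 + ε := by nlinarith
          have k2 : (1 + ε / 4) ^ 2 * S ≤ (1 + ε) * S := mul_le_mul_of_nonneg_right k1 hS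
          nlinarith
  rw [hsplit]
  have hpos : 0 ≤ m / L ^ 2 := by positivity
  have h10 : ε * (m / L ^ 2) ≤ ε * SH * (m / L ^ 2) := by
    apply mul_le_mul_of_nonneg_right _ hpos
    nlinarith
  have h11 : ((1 + ε) * S + 2 * ε) * (m / L ^ 2) ≤ ((1 + ε) * S + 2 * ε * SH) * (m / L ^ 2) := by
    apply mul_le_mul_of_nonneg_right _ hpos
    nlinarith
  have h12 : 0 ≤ ε * SH * (m / L ^ 2) := by positivity
  nlinarith

end Pool.Agent.U839.Gb
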