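import Mathlib
import Pool.Agent.U839.Gb.Mean
import Pool.Agent.U839.Gb.Chern
import Pool.Agent.U839.Tp.Pairs

set_option autoImplicit false

/-! # Concentration -/

open MeasureTheory ProbabilityTheory Filter Finset Topology

namespace Pool.Agent.U839.Gb

open Pool.Agent.U839.Sv (Pr mem_Pr W W_eq W_pos one_sub_pos fT fT_nonneg Sieved law' T_small)
open Pool.Agent.U839.Thin (tlog)
open Pool.Agent.U839.Tp (inter_prob)

variable {Ω : Type*} [MeasurableSpace Ω] {μ : Measure Ω} [IsProbabilityMeasure μ]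

/-- the pair of `a` -/
def Up (m a : ℕ) : Finset ℕ := if a < m then {a, 2 * m - a} else ∅

theorem Up_disj (m : ℕ) (a b : ℕ) (hab : a ≠ b) : Disjoint (Up m a) (Up m b) := by
  unfold Up
  split_ifs with h1 h2
  · rw [Finset.disjoint_left]
    intro c hc hc'
    rw [mem_insert, mem_singleton] at hc hc'
    omega
  · exact disjoint_empty_right _
  · exact disjoint_empty_left _
  · exact disjoint_empty_left _

def FF (E : ℕ → Set Ω) (m a : ℕ) : Set Ω := ⋂ k ∈ Up m a, E k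

theorem FF_meas {E : ℕ → Set Ω} (hm : ∀ n, MeasurableSet (E n)) (m a : ℕ) : MeasurableSet (FF E m a) :=
  Finset.measurableSet_biInter _ (fun k _ => hm k)

omit [IsProbabilityMeasure μ] in
theorem FF_indep {E : ℕ → Set Ω} (hm : ∀ n, MeasurableSet (E n)) (hE : iIndepSet E μ) (m : ℕ) :
    iIndepSet (FF E m) μ := group hm hE (Up m) (Up_disj m)

theorem FF_sum {E : ℕ → Set Ω} (hE : iIndepSet E μ) (m : ℕ) :
    ∑ a ∈ range m, μ.real (FF E m a) = MM μ E m := by
  unfold MM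
  apply sum_congr rfl
  intro a ha
  rw [mem_range] at ha
  unfold FF
  rw [inter_prob hE]
  unfold Up
  rw [if_pos ha, prod_pair (by omega)]

open Classical in
/-- the number of pairs -/
noncomputable def Cp (Q : Set ℕ) (m : ℕ) : ℕ := ((range m).filter (fun a => a ∈ Q ∧ 2 * m - a ∈ Q)).card

omit [MeasurableSpace Ω] in
theorem SS_Cp (E : ℕ → Set Ω) (m : ℕ) (ω : Ω) : SS (FF E m) (range m) ω = Cp {n | ω ∈ E n} m := by
  classical
  rw [SS_eq]
  unfold Cp
  congr 2
  apply filter_congr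
  intro a ha
  rw [mem_range] at ha
  unfold FF Up
  rw [if_pos ha]
  simp

/-- concentration -/
theorem conc {E : ℕ → Set Ω} (hm : ∀ n, MeasurableSet (E n)) (hE : iIndepSet E μ)
    (hlow : ∀ᶠ m : ℕ in atTop, (m : ℝ) ^ (1 / 2 : ℝ) ≤ MM μ E m) :
    ∀ᵐ ω ∂μ, ∀ ε : ℝ, 0 < ε → ∀ᶠ m : ℕ in atTop, (1 - ε) * MM μ E m ≤ Cp {n | ω ∈ E n} m ∧
      (Cp {n | ω ∈ E n} m : ℝ) ≤ (1 + ε) * MM μ E m := by
  have key : ∀ ε : ℝ, 0 < ε → ε ≤ 1 → ∀ᵐ ω ∂μ, ∀ᶠ m : ℕ in atTop,
      (1 - ε) * MM μ E m ≤ Cp {n | ω ∈ E n} m ∧ (Cp {n | ω ∈ E n} m : ℝ) ≤ (1 + ε) * MM μ E m := by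
    intro ε hε hε1
    obtain ⟨bad, hbad⟩ : ∃ bad : ℕ → Set Ω, bad = fun m =>
      {ω | (1 + ε) * ∑ a ∈ range m, μ.real (FF E m a) ≤ SS (FF E m) (range m) ω} ∪
      {ω | SS (FF E m) (range m) ω ≤ (1 - ε) * ∑ a ∈ range m, μ.real (FF E m a)} := ⟨_, rfl⟩
    have hlog := (isLittleO_log_rpow_atTop (r := 1 / 2) (by norm_num)).bound
      (show (0 : ℝ) < ε ^ 2 / 8 by positivity)
    have hb : ∀ᶠ m : ℕ in atTop, μ.real (bad m) ≤ 2 * (1 / (m : ℝ) ^ (2 : ℝ)) := by
      filter_upwards [hlow, tendsto_natCast_atTop_atTop.eventually hlog, eventually_ge_atTop 1] with m g1 g2 g3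
      have hm0 : (0 : ℝ) < m := by exact_mod_cast g3
      have h1 := chern_up (FF E m) (FF_meas hm m) (FF_indep hm hE m) (range m) ε hε.le hε1
      have h2 := chern_low (FF E m) (FF_meas hm m) (FF_indep hm hE m) (range m) ε hε.le hε1
      have h3 : μ.real (bad m) ≤ Real.exp (-(ε ^ 2 / 4 * ∑ a ∈ range m, μ.real (FF E m a))) +
          Real.exp (-(ε ^ 2 / 4 * ∑ a ∈ range m, μ.real (FF E m a))) := by
        rw [hbad]
        exact (measureReal_union_le _ _).trans (add_le_add h1 h2)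
      refine h3.trans ?_
      rw [FF_sum hE, ← two_mul]
      apply mul_le_mul_of_nonneg_left _ (by norm_num)
      rw [one_div, ← Real.rpow_neg hm0.le, Real.rpow_def_of_pos hm0]
      apply Real.exp_le_exp.2
      rw [Real.norm_of_nonneg (Real.log_natCast_nonneg m), Real.norm_of_nonneg (by positivity)] at g2
      have h4 : ε ^ 2 / 4 * (m : ℝ) ^ (1 / 2 : ℝ) ≤ ε ^ 2 / 4 * MM μ E m := by gcongr
      linarith
    obtain ⟨n₀, hn₀⟩ := eventually_atTop.1 hb
    obtain ⟨bad', hbad'⟩ : ∃ bad' : ℕ → Set Ω, bad' = fun n => if n₀ ≤ n then bad n else ∅ := ⟨_, rfl⟩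
    have hsum : Summable (fun n : ℕ => 2 * (1 / (n : ℝ) ^ (2 : ℝ))) :=
      (Real.summable_one_div_nat_rpow.2 (by norm_num)).mul_left 2
    have htot : ∑' n, μ (bad' n) ≠ ⊤ := by
      have h5 : ∀ n, μ (bad' n) ≤ ENNReal.ofReal (2 * (1 / (n : ℝ) ^ (2 : ℝ))) := by
        intro n
        rw [hbad']
        simp only
        split_ifs with hn
        · rw [← ENNReal.ofReal_toReal (measure_ne_top μ (bad n))]
          exact ENNReal.ofReal_le_ofReal (hn₀ n hn)
        · simp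
      exact ne_top_of_le_ne_top hsum.tsum_ofReal_ne_top (ENNReal.tsum_le_tsum h5)
    filter_upwards [ae_eventually_notMem htot] with ω hω
    filter_upwards [hω, eventually_ge_atTop n₀] with n hn hnn
    rw [hbad'] at hn
    simp only [if_pos hnn] at hn
    rw [hbad] at hn
    simp only [Set.mem_union, Set.mem_ofPred_eq, not_or, not_le] at hn
    rw [FF_sum hE, SS_Cp] at hn
    exact ⟨hn.2.le, hn.1.le⟩
  have h := ae_all_iff.2 (fun j : ℕ => key (1 / ((j : ℝ) + 1)) (by positivity) (by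
    rw [div_le_one (by positivity)]
    have : (0 : ℝ) ≤ j := Nat.cast_nonneg j
    linarith))
  filter_upwards [h] with ω hω ε hε
  obtain ⟨j, hj⟩ := exists_nat_one_div_lt hε
  filter_upwards [hω j] with m h1
  have h0 := MM_nonneg (μ := μ) E m
  constructor
  · refine le_trans ?_ h1.1
    apply mul_le_mul_of_nonneg_right _ h0
    linarith
  · refine h1.2.trans ?_
    apply mul_le_mul_of_nonneg_right _ h0
    linarith

open Classical in
/-- the number of representations -/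
noncomputable def rp (Q : Set ℕ) (n : ℕ) : ℕ := ((antidiagonal n).filter (fun p => p.1 ∈ Q ∧ p.2 ∈ Q)).card

theorem rp_Cp (Q : Set ℕ) (m : ℕ) : 2 * Cp Q m ≤ rp Q (2 * m) ∧ rp Q (2 * m) ≤ 2 * Cp Q m + 1 := by
  classical
  obtain ⟨f, hf⟩ : ∃ f : ℕ → ℕ, f = fun a => if a ∈ Q ∧ 2 * m - a ∈ Q then 1 else 0 := ⟨_, rfl⟩
  have h1 : rp Q (2 * m) = ∑ a ∈ range (2 * m + 1), f a := by
    unfold rp
    rw [card_filter, Finset.Nat.sum_antidiagonal_eq_sum_range_succ_mk, hf]
  have h2 : Cp Q m = ∑ a ∈ range m, f a := by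
    unfold Cp
    rw [card_filter, hf]
  have h3 : ∑ a ∈ range (2 * m + 1), f a = ∑ a ∈ range m, f a + f m + ∑ a ∈ range m, f (m + 1 + a) := by
    have e : 2 * m + 1 = m + 1 + m := by ring
    rw [e, sum_range_add, sum_range_succ]
  have h4 : ∑ a ∈ range m, f (m + 1 + a) = ∑ a ∈ range m, f a := by
    rw [← sum_range_reflect (fun a => f (m + 1 + a)) m]
    apply sum_congr rfl
    intro a ha
    rw [mem_range] at ha
    rw [hf]
    simp only
    have e1 : m + 1 + (m - 1 - a) = 2 * m - a := by omega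
    have e2 : 2 * m - (2 * m - a) = a := by omega
    rw [e1, e2]
    by_cases k1 : a ∈ Q <;> by_cases k2 : 2 * m - a ∈ Q <;> simp [k1, k2]
  have h5 : f m ≤ 1 := by
    rw [hf]
    simp only
    split_ifs <;> omega
  omega

end Pool.Agent.U839.Gb
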