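import Mathlib
import Pool.Agent.U839.Gb.Mean
import Pool.Agent.U839.Cc.Cand

set_option autoImplicit false

/-! # The expected number of representations divided by the Hardy–Littlewood prediction -/

open MeasureTheory ProbabilityTheory Filter Finset Topology

namespace Pool.Agent.U839.Gb

open Pool.Agent.U839.Sv (Pr mem_Pr W W_eq W_pos one_sub_pos fT fT_nonneg Sieved law' T_small)
open Pool.Agent.U839.Thin (tlog)
open Pool.Agent.U839.Fb (tloglog)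
open Pool.Agent.U839.Cc (W_asymp)

variable {Ω : Type*} [MeasurableSpace Ω] {μ : Measure Ω} [IsProbabilityMeasure μ]

/-- half of the prediction -/
noncomputable def hHL (m : ℕ) : ℝ := SHL (2 * m) * (m / (Real.log (2 * m : ℕ)) ^ 2)

noncomputable def Mh (μ : Measure Ω) (E : ℕ → Set Ω) (m : ℕ) : ℝ := MM μ E m / hHL m

theorem SHL_one (n : ℕ) : 1 ≤ SHL n := by
  have h1 := SHL_low n
  have h2 := C2_low
  linarith

theorem base_pos {m : ℕ} (hm : 1 ≤ m) : 0 < (m : ℝ) / (Real.log (2 * m : ℕ)) ^ 2 := by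
  have h1 : (0 : ℝ) < m := by exact_mod_cast hm
  have h2 : 0 < Real.log (2 * m : ℕ) := by
    apply Real.log_pos
    exact_mod_cast (by omega : 1 < 2 * m)
  positivity

theorem hHL_pos {m : ℕ} (hm : 1 ≤ m) : 0 < hHL m :=
  mul_pos (zero_lt_one.trans_le (SHL_one _)) (base_pos hm)

omit [IsProbabilityMeasure μ] in
theorem Mh_nonneg {E : ℕ → Set Ω} {m : ℕ} (hm : 1 ≤ m) : 0 ≤ Mh μ E m :=
  div_nonneg (MM_nonneg E m) (hHL_pos hm).le

theorem Mh_low (T : ℕ → ℕ) (hT : Monotone T)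
    (hTs : ∀ ε : ℝ, 0 < ε → ∀ᶠ n : ℕ in atTop, (T n : ℝ) ≤ (n : ℝ) ^ ε)
    {E : ℕ → Set Ω} (hE : Sieved μ E T) (ε : ℝ) (hε : 0 < ε) :
    ∀ᶠ m : ℕ in atTop, ∀ ρ : ℝ, 0 ≤ ρ → ρ ≤ 2 →
      (∀ a : ℕ, m < a ^ 2 → a < m → ρ * SHL (2 * m) ≤ Ss (2 * m) (T a)) → ρ - ε ≤ Mh μ E m := by
  obtain ⟨η, hη⟩ : ∃ η, η = min (ε / 3) 1 := ⟨_, rfl⟩
  have hη0 : 0 < η := by rw [hη]; positivity
  have hη1 : η ≤ 1 := by rw [hη]; exact min_le_right _ _
  have hηε : η ≤ ε / 3 := by rw [hη]; exact min_le_left _ _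
  filter_upwards [mean_low T hT hTs hE η hη0 hη1, eventually_ge_atTop 1] with m g1 g2 ρ hρ hρ2 hS
  have hb := base_pos g2
  have hs := SHL_one (2 * m)
  have h1 := g1 (ρ * SHL (2 * m)) (by positivity) (fun a ha => by
    rw [mem_Ioc] at ha
    apply hS a _ (by omega)
    have k3 : m < (Nat.sqrt m + 1) * (Nat.sqrt m + 1) := Nat.lt_succ_sqrt m
    have k4 : (Nat.sqrt m + 1) * (Nat.sqrt m + 1) ≤ a * a := Nat.mul_le_mul (by omega) (by omega)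
    rw [pow_two]
    omega)
  unfold Mh
  rw [le_div_iff₀ (hHL_pos g2)]
  refine le_trans ?_ h1
  unfold hHL
  rw [← mul_assoc]
  apply mul_le_mul_of_nonneg_right _ hb.le
  obtain ⟨s, hs'⟩ : ∃ s, s = SHL (2 * m) := ⟨_, rfl⟩
  rw [← hs'] at hs ⊢
  have k1 : η * ρ * s ≤ η * 2 * s := by gcongr
  have k2 : η ≤ η * s := le_mul_of_one_le_right hη0.le hs
  have k3 : η * s ≤ ε / 3 * s := by gcongr
  linarith

theorem Mh_up (T : ℕ → ℕ) (hT : Monotone T)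
    (hTs : ∀ ε : ℝ, 0 < ε → ∀ᶠ n : ℕ in atTop, (T n : ℝ) ≤ (n : ℝ) ^ ε) (hTi : Tendsto T atTop atTop)
    {E : ℕ → Set Ω} (hE : Sieved μ E T) (ε : ℝ) (hε : 0 < ε) : ∃ δ : ℝ, 0 < δ ∧
    ∀ᶠ m : ℕ in atTop, ∀ ρ : ℝ, 0 ≤ ρ → ρ ≤ 2 →
      (∀ a : ℕ, δ * m ≤ a → a < m → Ss (2 * m) (T a) ≤ ρ * SHL (2 * m)) → Mh μ E m ≤ ρ + ε := by
  obtain ⟨η, hη⟩ : ∃ η, η = min (ε / 42) (1 / 2) := ⟨_, rfl⟩
  have hη0 : 0 < η := by rw [hη]; positivity
  have hη1 : η ≤ 1 / 2 := by rw [hη]; exact min_le_right _ _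
  have hηε : η ≤ ε / 42 := by rw [hη]; exact min_le_left _ _
  refine ⟨η, hη0, ?_⟩
  filter_upwards [mean_up T hT hTs hTi hE η hη0 hη1, eventually_ge_atTop 1] with m g1 g2 ρ hρ hρ2 hS
  have hb := base_pos g2
  have hs := SHL_one (2 * m)
  have h1 := g1 (ρ * SHL (2 * m)) (by positivity) (fun a ha => by
    rw [mem_Ioc] at ha
    apply hS a _ (by omega)
    have h2 : ((⌊η * m⌋₊ + 1 : ℕ) : ℝ) ≤ a := by exact_mod_cast ha.1
    have h3 := Nat.lt_floor_add_one (η * (m : ℝ))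
    push_cast at h2
    linarith)
  unfold Mh
  rw [div_le_iff₀ (hHL_pos g2)]
  refine h1.trans ?_
  unfold hHL
  rw [← mul_assoc (ρ + ε)]
  apply mul_le_mul_of_nonneg_right _ hb.le
  obtain ⟨s, hs'⟩ : ∃ s, s = SHL (2 * m) := ⟨_, rfl⟩
  rw [← hs'] at hs ⊢
  have k1 : η * ρ * s ≤ η * 2 * s := by gcongr
  have k3 : η * s ≤ ε / 42 * s := by gcongr
  linarith

/-- the ratio is at most `1 + o(1)` -/
theorem upper (T : ℕ → ℕ) (hT : Monotone T)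
    (hTs : ∀ ε : ℝ, 0 < ε → ∀ᶠ n : ℕ in atTop, (T n : ℝ) ≤ (n : ℝ) ^ ε) (hTi : Tendsto T atTop atTop)
    {E : ℕ → Set Ω} (hE : Sieved μ E T) (ε : ℝ) (hε : 0 < ε) : ∀ᶠ m : ℕ in atTop, Mh μ E m ≤ 1 + ε := by
  obtain ⟨δ, hδ, H⟩ := Mh_up T hT hTs hTi hE (ε / 2) (by positivity)
  obtain ⟨η, hη⟩ : ∃ η, η = min (ε / 2) 1 := ⟨_, rfl⟩
  have hη0 : 0 < η := by rw [hη]; positivity
  have hη1 : η ≤ 1 := by rw [hη]; exact min_le_right _ _
  have hηε : η ≤ ε / 2 := by rw [hη]; exact min_le_left _ _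
  have hC := C2_low
  have hcc : ∀ᶠ t : ℕ in atTop, cc t ≤ (1 + η) * C2 := by
    have := cc_lim.eventually (gt_mem_nhds (show C2 < (1 + η) * C2 by nlinarith))
    filter_upwards [this] with t ht
    exact ht.le
  obtain ⟨a₀, ha₀⟩ := eventually_atTop.1 (hTi.eventually (hcc.and (eventually_ge_atTop 2)))
  filter_upwards [H, eventually_ge_atTop 1, tendsto_natCast_atTop_atTop.eventually_ge_atTop ((a₀ : ℝ) / δ)]
    with m g1 g2 g3
  have h1 := g1 (1 + η) (by linarith) (by linarith) (fun a ha ham => by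
    have h2 : a₀ ≤ a := by
      have : (a₀ : ℝ) ≤ a := by
        refine le_trans ?_ ha
        rw [div_le_iff₀ hδ] at g3
        linarith
      exact_mod_cast this
    obtain ⟨h3, h4⟩ := ha₀ a h2
    have h5 := Ss_up (n := 2 * m) (t := T a) (by omega) ⟨m, rfl⟩ h4
    have hs := SHL_one (2 * m)
    have h6 : cc (T a) * SHL (2 * m) ≤ (1 + η) * C2 * SHL (2 * m) := by gcongr
    have h7 : C2 * Ss (2 * m) (T a) ≤ C2 * ((1 + η) * SHL (2 * m)) := by linarith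
    exact le_of_mul_le_mul_left h7 (by linarith))
  linarith

/-- powers of `2` -/
theorem SHL_pow (k : ℕ) : SHL (2 ^ (k + 1)) = 2 * C2 := by
  unfold SHL
  rw [Nat.primeFactors_prime_pow (by omega) Nat.prime_two]
  have : ({2} : Finset ℕ).filter (fun p => 2 < p) = ∅ := by decide
  rw [this, prod_empty, mul_one]

theorem pow_ratio (T : ℕ → ℕ) (hT : Monotone T)
    (hTs : ∀ ε : ℝ, 0 < ε → ∀ᶠ n : ℕ in atTop, (T n : ℝ) ≤ (n : ℝ) ^ ε) (hTi : Tendsto T atTop atTop)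
    {E : ℕ → Set Ω} (hE : Sieved μ E T) (ε : ℝ) (hε : 0 < ε) :
    ∀ᶠ m : ℕ in atTop, (∃ k, m = 2 ^ k) → 1 - ε ≤ Mh μ E m := by
  obtain ⟨a₀, ha₀⟩ := eventually_atTop.1 (hTi.eventually_ge_atTop 2)
  filter_upwards [Mh_low T hT hTs hE ε hε, eventually_ge_atTop (a₀ ^ 2 + 1)] with m g1 g2 hk
  obtain ⟨k, hk⟩ := hk
  have h1 : SHL (2 * m) = 2 * C2 := by
    rw [hk, ← pow_succ']
    exact SHL_pow k
  exact g1 1 (by norm_num) (by norm_num) (fun a ha _ => by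
    have h2 : a₀ ≤ a := by
      by_contra hcon
      push Not at hcon
      have : a ^ 2 ≤ a₀ ^ 2 := Nat.pow_le_pow_left hcon.le 2
      omega
    rw [one_mul, h1]
    exact Ss_low ⟨m, rfl⟩ (ha₀ a h2))

/-- the uniform lower bound -/
theorem unif (T : ℕ → ℕ) (hT : Monotone T)
    (hTs : ∀ ε : ℝ, 0 < ε → ∀ᶠ n : ℕ in atTop, (T n : ℝ) ≤ (n : ℝ) ^ ε) (hTi : Tendsto T atTop atTop)
    {E : ℕ → Set Ω} (hE : Sieved μ E T) (ε : ℝ) (hε : 0 < ε) :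
    ∀ᶠ m : ℕ in atTop, (2 * C2 - ε) * (m / (Real.log (2 * m : ℕ)) ^ 2) ≤ MM μ E m := by
  obtain ⟨η, hη⟩ : ∃ η, η = min (ε / 3) 1 := ⟨_, rfl⟩
  have hη0 : 0 < η := by rw [hη]; positivity
  have hη1 : η ≤ 1 := by rw [hη]; exact min_le_right _ _
  have hηε : η ≤ ε / 3 := by rw [hη]; exact min_le_left _ _
  obtain ⟨a₀, ha₀⟩ := eventually_atTop.1 (hTi.eventually_ge_atTop 2)
  have hC := C2_low
  have hC1 : C2 ≤ 1 := (C2_le 0).trans (cc_le 0)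
  filter_upwards [mean_low T hT hTs hE η hη0 hη1, eventually_ge_atTop ((a₀ + 1) ^ 2)] with m g1 g2
  have hm1 : 1 ≤ m := by
    have : 1 ≤ (a₀ + 1) ^ 2 := Nat.one_le_pow _ _ (by omega)
    omega
  have h1 := g1 (2 * C2) (by linarith) (fun a ha => by
    rw [mem_Ioc] at ha
    have : a₀ + 1 ≤ Nat.sqrt m := by
      rw [Nat.le_sqrt']
      exact g2
    exact Ss_low ⟨m, rfl⟩ (ha₀ a (by omega)))
  refine le_trans ?_ h1
  apply mul_le_mul_of_nonneg_right _ (base_pos hm1).le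
  have : η * C2 ≤ η * 1 := by gcongr
  linarith

theorem low_sqrt (T : ℕ → ℕ) (hT : Monotone T)
    (hTs : ∀ ε : ℝ, 0 < ε → ∀ᶠ n : ℕ in atTop, (T n : ℝ) ≤ (n : ℝ) ^ ε) (hTi : Tendsto T atTop atTop)
    {E : ℕ → Set Ω} (hE : Sieved μ E T) : ∀ᶠ m : ℕ in atTop, (m : ℝ) ^ (1 / 2 : ℝ) ≤ MM μ E m := by
  filter_upwards [unif T hT hTs hTi hE (1 / 2) (by norm_num),
    Pool.Agent.U839.Sv.log_sq_small 8 (1 / 2) (by norm_num) (by norm_num), eventually_ge_atTop 2] with m g1 g2 g3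
  refine le_trans ?_ g1
  have hm2 : (2 : ℝ) ≤ m := by exact_mod_cast g3
  have hm0 : (0 : ℝ) < m := by linarith
  have hC := C2_low
  have h1 : Real.log (2 * m : ℕ) ≤ 2 * Real.log m := by
    push_cast
    rw [Real.log_mul (by norm_num) hm0.ne']
    have := Real.log_le_log (by norm_num) hm2
    linarith
  have h2 : 0 < Real.log (2 * m : ℕ) := by
    apply Real.log_pos
    exact_mod_cast (by omega : 1 < 2 * m)
  have h3 : (Real.log (2 * m : ℕ)) ^ 2 ≤ (2 * Real.log m) ^ 2 := pow_le_pow_left₀ h2.le h1 2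
  obtain ⟨s, hs⟩ : ∃ s, s = (m : ℝ) ^ (1 / 2 : ℝ) := ⟨_, rfl⟩
  have hs0 : 0 ≤ s := by
    rw [hs]
    positivity
  have h5 : s * s = m := by
    rw [hs, ← Real.rpow_add hm0]
    norm_num
  rw [← hs] at g2 ⊢
  have h6 : 1 / 2 * (m / (Real.log (2 * m : ℕ)) ^ 2) ≤
      (2 * C2 - 1 / 2) * (m / (Real.log (2 * m : ℕ)) ^ 2) := by
    apply mul_le_mul_of_nonneg_right _ (base_pos (by omega)).le
    linarith
  refine le_trans ?_ h6
  rw [← mul_div_assoc, le_div_iff₀ (by positivity)]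
  have h7 : s * (Real.log (2 * m : ℕ)) ^ 2 ≤ s * (4 * (Real.log m) ^ 2) := by
    apply mul_le_mul_of_nonneg_left _ hs0
    linarith
  have h8 : s * (4 * (Real.log m) ^ 2) ≤ s * (1 / 2 * s) := by
    apply mul_le_mul_of_nonneg_left _ hs0
    linarith
  nlinarith

end Pool.Agent.U839.Gb
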