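import Mathlib
import Pool.Agent.U839.Gb.Det

set_option autoImplicit false

/-! # Integers with few representations -/

open MeasureTheory ProbabilityTheory Filter Finset Topology

namespace Pool.Agent.U839.Gb

open Pool.Agent.U839.Sv (Pr mem_Pr W W_eq W_pos one_sub_pos fT fT_nonneg Sieved law' T_small)
open Pool.Agent.U839.Thin (tlog)
open Pool.Agent.U839.Fb (tloglog)
open Pool.Agent.U839.Cc (W_asymp)

variable {Ω : Type*} [MeasurableSpace Ω] {μ : Measure Ω} [IsProbabilityMeasure μ]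

/-- the size of the primorial -/
theorem prim_small : ∀ᶠ N : ℕ in atTop, 2 * primorial ⌊Real.log N / 2⌋₊ ≤ N := by
  have e1 : ∀ᶠ N : ℕ in atTop, Real.log 2 ≤ (1 - 0.7) * Real.log N :=
    (tlog.const_mul_atTop (by norm_num)).eventually_ge_atTop _
  filter_upwards [e1, eventually_ge_atTop 1] with N g1 g2
  have hN0 : (0 : ℝ) < N := by exact_mod_cast g2
  have hL0 : 0 ≤ Real.log N := Real.log_natCast_nonneg N
  have h1 : ((primorial ⌊Real.log N / 2⌋₊ : ℕ) : ℝ) ≤ (4 : ℝ) ^ ⌊Real.log N / 2⌋₊ := by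
    exact_mod_cast primorial_le_four_pow ⌊Real.log N / 2⌋₊
  have h2 : (⌊Real.log N / 2⌋₊ : ℝ) ≤ Real.log N / 2 := Nat.floor_le (by positivity)
  have h3 : (4 : ℝ) ^ ⌊Real.log N / 2⌋₊ ≤ Real.exp (0.7 * Real.log N) := by
    have h4 : (4 : ℝ) ^ ⌊Real.log N / 2⌋₊ = Real.exp (⌊Real.log N / 2⌋₊ * Real.log 4) := by
      rw [← Real.rpow_natCast, Real.rpow_def_of_pos (by norm_num), mul_comm]
    rw [h4]
    apply Real.exp_le_exp.2
    have h5 : Real.log 4 = 2 * Real.log 2 := by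
      rw [← Real.log_rpow (by norm_num)]
      norm_num
    have h6 := Real.log_two_lt_d9
    have h7 := Real.log_two_gt_d9
    rw [h5]
    calc (⌊Real.log N / 2⌋₊ : ℝ) * (2 * Real.log 2) ≤ Real.log N / 2 * (2 * Real.log 2) := by gcongr
      _ = Real.log 2 * Real.log N := by ring
      _ ≤ 0.7 * Real.log N := by
          apply mul_le_mul_of_nonneg_right _ hL0
          linarith
  have h8 : (2 : ℝ) * Real.exp (0.7 * Real.log N) ≤ N := by
    calc (2 : ℝ) * Real.exp (0.7 * Real.log N) = Real.exp (Real.log 2 + 0.7 * Real.log N) := by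
          rw [Real.exp_add, Real.exp_log (by norm_num)]
      _ ≤ Real.exp (Real.log N) := by
          apply Real.exp_le_exp.2
          linarith
      _ = N := Real.exp_log hN0
  have h9 : (2 : ℝ) * ((primorial ⌊Real.log N / 2⌋₊ : ℕ) : ℝ) ≤ N := by linarith
  exact_mod_cast h9

/-- a multiple of the primorial -/
theorem exists_mult (N P : ℕ) (hP : 0 < P) (hP2 : 2 ∣ P) (h : 2 * P ≤ N) :
    ∃ m, 2 * m ≤ N ∧ N ≤ 4 * m ∧ P ∣ 2 * m := by
  have h1 : P * (N / P) ≤ N := Nat.mul_div_le N P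
  have h2 : N < P * (N / P) + P := by
    have := Nat.lt_mul_div_succ N hP
    rw [mul_add, mul_one] at this
    exact this
  obtain ⟨c, hc⟩ := hP2
  refine ⟨c * (N / P), ?_, ?_, ?_⟩
  · rw [← mul_assoc, ← hc]
    exact h1
  · have h3 : 4 * (c * (N / P)) = 2 * (P * (N / P)) := by
      rw [hc]
      ring
    rw [h3]
    omega
  · rw [← mul_assoc, ← hc]
    exact Nat.dvd_mul_right _ _

/-- integers with few representations -/
theorem neg (T : ℕ → ℕ) (hT : Monotone T)
    (hTs : ∀ ε : ℝ, 0 < ε → ∀ᶠ n : ℕ in atTop, (T n : ℝ) ≤ (n : ℝ) ^ ε) (hTi : Tendsto T atTop atTop)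
    {E : ℕ → Set Ω} (hE : Sieved μ E T) (κ : ℝ) (hκ : 0 ≤ κ) (hκ1 : κ < 1)
    (hfr : ∃ᶠ N : ℕ in atTop, Real.log (T N) ≤ κ * Real.log (Real.log N)) (ε : ℝ) (hε : 0 < ε) (hε1 : ε ≤ 1) :
    ∃ᶠ m : ℕ in atTop, Mh μ E m ≤ κ + ε := by
  obtain ⟨δ, hδ, H⟩ := Mh_up T hT hTs hTi hE (ε / 2) (by positivity)
  obtain ⟨m₀, hm₀⟩ := eventually_atTop.1 H
  obtain ⟨η, hη⟩ : ∃ η, η = min (ε / 20) (1 / 4) := ⟨_, rfl⟩
  have hη0 : 0 < η := by rw [hη]; positivity
  have hη1 : η ≤ 1 / 4 := by rw [hη]; exact min_le_right _ _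
  have hηε : η ≤ ε / 20 := by rw [hη]; exact min_le_left _ _
  have hC := C2_low
  have hcc : ∀ᶠ t : ℕ in atTop, cc t ≤ (1 + η) * C2 := by
    have := cc_lim.eventually (gt_mem_nhds (show C2 < (1 + η) * C2 by nlinarith))
    filter_upwards [this] with t ht
    exact ht.le
  have hz : Tendsto (fun N : ℕ => ⌊Real.log N / 2⌋₊) atTop atTop :=
    tendsto_nat_floor_atTop.comp (tlog.atTop_div_const (by norm_num))
  have hpow : ∀ᶠ N : ℕ in atTop, (Real.log N) ^ κ ≤ Real.log N / 2 - 1 := by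
    have h1 : Tendsto (fun x : ℝ => x ^ (1 - κ)) atTop atTop := tendsto_rpow_atTop (by linarith)
    filter_upwards [(h1.comp tlog).eventually_ge_atTop 4, tlog.eventually_ge_atTop 4] with N g1 g2
    simp only [Function.comp] at g1
    obtain ⟨L, hL⟩ : ∃ L, L = Real.log N := ⟨_, rfl⟩
    rw [← hL] at g1 g2 ⊢
    have hL0 : 0 < L := by linarith
    have h2 : L ^ (1 - κ) * L ^ κ = L := by
      rw [← Real.rpow_add hL0]
      norm_num
    have h3 : 0 ≤ L ^ κ := by positivity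
    nlinarith
  have ev : ∀ᶠ N : ℕ in atTop, Real.log (T N) ≤ κ * Real.log (Real.log N) →
      ∃ m, N ≤ 4 * m ∧ (m₀ ≤ m → Mh μ E m ≤ κ + ε) := by
    filter_upwards [prim_small, hz.eventually (hcc.and ((eventually_ge_atTop 2).and (W_asymp η hη0))),
      hTi.eventually ((W_asymp η hη0).and (eventually_ge_atTop 1)), hpow, tlog.eventually_ge_atTop 8,
      tloglog.eventually_ge_atTop (Real.log 4 / η), eventually_ge_atTop 1] with N g1 g2 g3 g4 g5 g6 g7 g8
    obtain ⟨z, hz'⟩ : ∃ z, z = ⌊Real.log N / 2⌋₊ := ⟨_, rfl⟩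
    obtain ⟨P, hP⟩ : ∃ P, P = primorial z := ⟨_, rfl⟩
    rw [← hz', ← hP] at g1
    rw [← hz'] at g2
    obtain ⟨k1, k2, k3⟩ := g2
    obtain ⟨l1, l2⟩ := g3
    have hP2 : 2 ∣ P := by
      rw [hP, Nat.prime_two.dvd_primorial_iff]
      exact k2
    obtain ⟨m, h1, h2, h3⟩ := exists_mult N P (by rw [hP]; exact primorial_pos z) hP2 g1
    refine ⟨m, h2, fun hm => ?_⟩
    have hm1 : 1 ≤ m := by omega
    obtain ⟨L, hL⟩ : ∃ L, L = Real.log N := ⟨_, rfl⟩
    rw [← hL] at g4 g5 g6 g8 hz'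
    obtain ⟨ℓ, hℓ⟩ : ∃ ℓ, ℓ = Real.log L := ⟨_, rfl⟩
    rw [← hℓ] at g6 g8
    have hL0 : 0 < L := by linarith
    have hz1 : L / 2 - 1 ≤ z := by
      have := Nat.lt_floor_add_one (L / 2)
      rw [← hz'] at this
      linarith
    have hTz : T N ≤ z := by
      have h4 : (T N : ℝ) ≤ L ^ κ := by
        have h5 : (0 : ℝ) < T N := by exact_mod_cast l2
        rw [Real.rpow_def_of_pos hL0, ← hℓ, mul_comm, ← Real.exp_log h5]
        exact Real.exp_le_exp.2 g8
      have h5 : (T N : ℝ) ≤ z := by linarith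
      exact_mod_cast h5
    have hdiv : ∀ p, p.Prime → p ≤ z → p ∣ 2 * m := by
      intro p hp hpz
      refine dvd_trans ?_ h3
      rw [hP, hp.dvd_primorial_iff]
      exact hpz
    have hlogz : (1 - η) * ℓ ≤ Real.log z := by
      have h4 : L / 4 ≤ z := by linarith
      have h5 := Real.log_le_log (by linarith) h4
      rw [Real.log_div (by linarith) (by norm_num), ← hℓ] at h5
      rw [div_le_iff₀ hη0] at g6
      linarith
    have he := Real.exp_pos Real.eulerMascheroniConstant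
    obtain ⟨e, he'⟩ : ∃ e, e = Real.exp Real.eulerMascheroniConstant := ⟨_, rfl⟩
    rw [← he'] at he k3 l1
    have hℓ0 : 0 ≤ ℓ := by
      rw [hℓ]
      exact Real.log_nonneg (by linarith)
    -- the singular series
    have hS1 : W z ≤ (1 + η) * SHL (2 * m) := by
      have h4 := Ss_up (n := 2 * m) (t := z) (by omega) ⟨m, rfl⟩ k2
      rw [Ss_special hdiv] at h4
      have h5 : cc z * SHL (2 * m) ≤ (1 + η) * C2 * SHL (2 * m) := by
        apply mul_le_mul_of_nonneg_right k1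
        linarith [SHL_one (2 * m)]
      have h6 : C2 * W z ≤ C2 * ((1 + η) * SHL (2 * m)) := by linarith
      exact le_of_mul_le_mul_left h6 (by linarith)
    have hW : W (T N) ≤ (κ + ε / 2) * SHL (2 * m) := by
      have h4 : W (T N) ≤ (1 + η) * e * (κ * ℓ) := by
        refine l1.2.trans ?_
        gcongr
      have h5 : (1 - η) * e * ((1 - η) * ℓ) ≤ W z := by
        refine le_trans ?_ k3.1
        apply mul_le_mul_of_nonneg_left hlogz
        apply mul_nonneg _ he.le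
        linarith
      have h6 : (1 - η) * e * ((1 - η) * ℓ) ≤ (1 + η) * SHL (2 * m) := h5.trans hS1
      -- multiply
      have h7 : (1 + η) ^ 2 * κ ≤ (κ + ε / 2) * (1 - η) ^ 2 := by
        have k4 : (1 + η) ^ 2 ≤ 1 + 3 * η := by nlinarith
        have k5 : 1 - 2 * η ≤ (1 - η) ^ 2 := by nlinarith
        have k6 : (1 + η) ^ 2 * κ ≤ (1 + 3 * η) * κ := by gcongr
        have k7 : (κ + ε / 2) * (1 - 2 * η) ≤ (κ + ε / 2) * (1 - η) ^ 2 := by gcongr
        have k8 : κ * η ≤ 1 * η := by gcongr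
        have k9 : ε * η ≤ ε * (1 / 4) := by gcongr
        nlinarith
      have h8 : (1 + η) * W (T N) ≤ (1 + η) * ((κ + ε / 2) * SHL (2 * m)) := by
        calc (1 + η) * W (T N) ≤ (1 + η) * ((1 + η) * e * (κ * ℓ)) := by gcongr
          _ = ((1 + η) ^ 2 * κ) * (e * ℓ) := by ring
          _ ≤ ((κ + ε / 2) * (1 - η) ^ 2) * (e * ℓ) := by gcongr
          _ = (κ + ε / 2) * ((1 - η) * e * ((1 - η) * ℓ)) := by ring
          _ ≤ (κ + ε / 2) * ((1 + η) * SHL (2 * m)) := by gcongr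
          _ = (1 + η) * ((κ + ε / 2) * SHL (2 * m)) := by ring
      exact le_of_mul_le_mul_left h8 (by linarith)
    have h9 := hm₀ m hm (κ + ε / 2) (by linarith) (by linarith) (fun a _ ham => by
      have h10 : T a ≤ T N := hT (by omega)
      rw [Ss_special (fun p hp hpT => hdiv p hp (by omega))]
      exact (W_mono h10).trans hW)
    linarith
  rw [frequently_atTop]
  intro M
  obtain ⟨N, h1, h2, h3⟩ := (hfr.and_eventually (ev.and (eventually_ge_atTop (4 * (M + m₀))))).exists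
  obtain ⟨m, h4, h5⟩ := h2 h1
  exact ⟨m, by omega, h5 (by omega)⟩

end Pool.Agent.U839.Gb
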