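import Mathlib
import Pool.Agent.U839.Gb.Det

set_option autoImplicit false

/-! # The lower bound from the depth of the sieve -/

open MeasureTheory ProbabilityTheory Filter Finset Topology

namespace Pool.Agent.U839.Gb

open Pool.Agent.U839.Sv (Pr mem_Pr W W_eq W_pos one_sub_pos fT fT_nonneg Sieved law' T_small)
open Pool.Agent.U839.Thin (tlog)
open Pool.Agent.U839.Fb (tloglog)
open Pool.Agent.U839.Cc (W_asymp)

variable {Ω : Type*} [MeasurableSpace Ω] {μ : Measure Ω} [IsProbabilityMeasure μ]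

theorem arith (κ η : ℝ) (hη0 : 0 < η) (hη1 : η ≤ 1 / 100) (hκ : 8 * η < κ) (hκ1 : κ ≤ 1) :
    (κ - 8 * η) * ((1 + η) * (1 + 2 * η) / ((1 - η) * ((κ - η) * (1 - η))) * (1 + η)) ≤ 1 := by
  have h1 : 0 < (1 - η) * ((κ - η) * (1 - η)) := by
    apply mul_pos (by linarith) (mul_pos (by linarith) (by linarith))
  have h2 : (κ - 8 * η) * ((1 + η) * (1 + 2 * η) / ((1 - η) * ((κ - η) * (1 - η))) * (1 + η)) =
      (κ - 8 * η) * ((1 + η) * (1 + 2 * η) * (1 + η)) / ((1 - η) * ((κ - η) * (1 - η))) := by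
    field_simp
  rw [h2, div_le_one h1]
  have h3 : (1 + η) * (1 + 2 * η) * (1 + η) ≤ 1 + 5 * η := by nlinarith [mul_pos hη0 hη0]
  have h4 : (1 - 2 * η) * (κ - η) ≤ (1 - η) * ((κ - η) * (1 - η)) := by
    have : 0 ≤ η ^ 2 * (κ - η) := mul_nonneg (by positivity) (by linarith)
    nlinarith
  have h5 : (κ - 8 * η) * ((1 + η) * (1 + 2 * η) * (1 + η)) ≤ (κ - 8 * η) * (1 + 5 * η) :=
    mul_le_mul_of_nonneg_left h3 (by linarith)
  have h6 : κ * η ≤ 1 * η := by gcongr
  nlinarith

/-- the lower bound -/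
theorem pos (T : ℕ → ℕ) (hT : Monotone T)
    (hTs : ∀ ε : ℝ, 0 < ε → ∀ᶠ n : ℕ in atTop, (T n : ℝ) ≤ (n : ℝ) ^ ε) (hTi : Tendsto T atTop atTop)
    {E : ℕ → Set Ω} (hE : Sieved μ E T) (κ : ℝ) (hκ1 : κ ≤ 1)
    (hdeep : ∀ ε : ℝ, 0 < ε → ∀ᶠ N : ℕ in atTop, (κ - ε) * Real.log (Real.log N) ≤ Real.log (T N))
    (ε : ℝ) (hε : 0 < ε) : ∀ᶠ m : ℕ in atTop, κ - ε ≤ Mh μ E m := by
  rcases le_or_gt κ ε with hκε | hκε
  · filter_upwards [eventually_ge_atTop 1] with m hm
    have := Mh_nonneg (μ := μ) (E := E) hm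
    linarith
  obtain ⟨η, hη⟩ : ∃ η, η = min (ε / 16) (1 / 100) := ⟨_, rfl⟩
  have hη0 : 0 < η := by rw [hη]; positivity
  have hη1 : η ≤ 1 / 100 := by rw [hη]; exact min_le_right _ _
  have hηε : η ≤ ε / 16 := by rw [hη]; exact min_le_left _ _
  have hz : Tendsto (fun m : ℕ => ⌈(Real.log (2 * m : ℕ)) ^ (1 + η)⌉₊) atTop atTop := by
    apply tendsto_nat_ceil_atTop.comp
    apply (tendsto_rpow_atTop (by linarith)).comp
    exact tlog.comp (tendsto_id.const_mul_atTop' (by norm_num))
  have hlogn : Tendsto (fun m : ℕ => Real.log (2 * m : ℕ)) atTop atTop :=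
    tlog.comp (tendsto_id.const_mul_atTop' (by norm_num))
  have hexp : ∀ᶠ L : ℝ in atTop, 2 * (L / Real.log 2) / L ^ (1 + η) ≤ Real.log (1 + η) := by
    have h1 : Tendsto (fun x : ℝ => 2 / Real.log 2 * x ^ (-η)) atTop (𝓝 (2 / Real.log 2 * 0)) :=
      (tendsto_rpow_neg_atTop hη0).const_mul _
    rw [mul_zero] at h1
    have h2 : 0 < Real.log (1 + η) := Real.log_pos (by linarith)
    filter_upwards [h1.eventually (gt_mem_nhds h2), eventually_gt_atTop 0] with x g1 g2
    refine le_trans (le_of_eq ?_) g1.le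
    rw [Real.rpow_add g2, Real.rpow_one, Real.rpow_neg g2.le]
    have : 0 < x ^ η := by positivity
    field_simp
  obtain ⟨a₀, ha₀⟩ := eventually_atTop.1 ((hdeep η hη0).and
    (hTi.eventually ((W_asymp η hη0).and (eventually_ge_atTop 2))))
  filter_upwards [Mh_low T hT hTs hE η hη0, eventually_ge_atTop (a₀ ^ 2 + 4), hz.eventually (W_asymp η hη0),
    hlogn.eventually hexp, hlogn.eventually_ge_atTop 8,
    (Real.tendsto_log_atTop.comp hlogn).eventually_ge_atTop (Real.log 4 / η),
    hz.eventually_ge_atTop 1] with m g1 g2 g3 g4 g5 g6 g7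
  have hmain := g1 (κ - 8 * η) (by linarith) (by linarith) (fun a ha ham => by
    have h2 : a₀ ≤ a := by
      by_contra hcon
      push Not at hcon
      have : a ^ 2 ≤ a₀ ^ 2 := Nat.pow_le_pow_left hcon.le 2
      omega
    obtain ⟨d1, d2, d3⟩ := ha₀ a h2
    obtain ⟨L, hL⟩ : ∃ L, L = Real.log (2 * m : ℕ) := ⟨_, rfl⟩
    simp only [Function.comp] at g6
    rw [← hL] at g3 g4 g5 g6 g7
    obtain ⟨ℓ, hℓ⟩ : ∃ ℓ, ℓ = Real.log L := ⟨_, rfl⟩
    rw [← hℓ] at g6
    have hm0 : (0 : ℝ) < m := by exact_mod_cast (by omega : 0 < m)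
    have hL0 : 0 < L := by linarith
    have hℓ0 : 0 < ℓ := by
      rw [hℓ]
      exact Real.log_pos (by linarith)
    obtain ⟨t, ht⟩ : ∃ t, t = T a := ⟨_, rfl⟩
    rw [← ht] at d1 d2 d3 ⊢
    have he := Real.exp_pos Real.eulerMascheroniConstant
    obtain ⟨e, he'⟩ : ∃ e, e = Real.exp Real.eulerMascheroniConstant := ⟨_, rfl⟩
    rw [← he'] at he g3 d2
    -- the logarithm of `a`
    have hla : L / 4 ≤ Real.log a := by
      have k3 : (m : ℝ) ≤ (a : ℝ) ^ 2 := by exact_mod_cast ha.le
      have k4 := Real.log_le_log hm0 k3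
      rw [Real.log_pow] at k4
      push_cast at k4
      have k5 : L = Real.log 2 + Real.log m := by
        rw [hL]
        push_cast
        rw [Real.log_mul (by norm_num) hm0.ne']
      have := Real.log_two_lt_d9
      linarith
    have hlla : (1 - η) * ℓ ≤ Real.log (Real.log a) := by
      have h5 := Real.log_le_log (by linarith) hla
      rw [Real.log_div (by linarith) (by norm_num), ← hℓ] at h5
      rw [div_le_iff₀ hη0] at g6
      linarith
    have hlt : (κ - η) * ((1 - η) * ℓ) ≤ Real.log t := by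
      refine le_trans ?_ d1
      apply mul_le_mul_of_nonneg_left hlla
      linarith
    have hWt : (1 - η) * e * ((κ - η) * ((1 - η) * ℓ)) ≤ W t := by
      refine le_trans ?_ d2.1
      apply mul_le_mul_of_nonneg_left hlt
      apply mul_nonneg _ he.le
      linarith
    obtain ⟨z₁, hz₁⟩ : ∃ z₁, z₁ = ⌈L ^ (1 + η)⌉₊ := ⟨_, rfl⟩
    rw [← hz₁] at g3 g7
    have hz1 : L ^ (1 + η) ≤ z₁ := by
      rw [hz₁]
      exact Nat.le_ceil _
    have hLp : 1 ≤ L ^ (1 + η) := Real.one_le_rpow (by linarith) (by linarith)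
    have hz2 : (z₁ : ℝ) ≤ 2 * L ^ (1 + η) := by
      have := Nat.ceil_lt_add_one (show 0 ≤ L ^ (1 + η) by positivity)
      rw [← hz₁] at this
      linarith
    have hlz : Real.log z₁ ≤ (1 + 2 * η) * ℓ := by
      have h3 := Real.log_le_log (by linarith) hz2
      rw [Real.log_mul (by norm_num) (by positivity), Real.log_rpow hL0, ← hℓ] at h3
      rw [div_le_iff₀ hη0] at g6
      have h4 : Real.log 2 ≤ Real.log 4 := Real.log_le_log (by norm_num) (by norm_num)
      linarith
    obtain ⟨B, hB⟩ : ∃ B, B = (1 + η) * (1 + 2 * η) / ((1 - η) * ((κ - η) * (1 - η))) := ⟨_, rfl⟩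
    have hden : 0 < (1 - η) * ((κ - η) * (1 - η)) := by
      apply mul_pos (by linarith) (mul_pos (by linarith) (by linarith))
    have hB1 : 1 ≤ B := by
      rw [hB, le_div_iff₀ hden, one_mul]
      have h3 : (κ - η) * (1 - η) ≤ 1 * 1 := by
        apply mul_le_mul (by linarith) (by linarith) (by linarith) (by norm_num)
      have h4 : (1 - η) * ((κ - η) * (1 - η)) ≤ 1 * 1 := by
        apply mul_le_mul (by linarith) (by linarith) _ (by norm_num)
        apply mul_nonneg (by linarith) (by linarith)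
      have h5 : 1 * 1 ≤ (1 + η) * (1 + 2 * η) := by
        apply mul_le_mul (by linarith) (by linarith) (by norm_num) (by linarith)
      linarith
    have hWW : W (max t z₁) / W t ≤ B := by
      rcases le_total z₁ t with h | h
      · rw [max_eq_left h, div_self (W_pos t).ne']
        exact hB1
      · rw [max_eq_right h, div_le_iff₀ (W_pos t)]
        have h3 : W z₁ ≤ (1 + η) * e * ((1 + 2 * η) * ℓ) := by
          refine g3.2.trans ?_
          gcongr
        refine h3.trans ?_
        have h4 : B * ((1 - η) * e * ((κ - η) * ((1 - η) * ℓ))) ≤ B * W t := by gcongr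
        refine le_trans (le_of_eq ?_) h4
        rw [hB]
        have i1 : (1 - η) ≠ 0 := by
          have : 0 < 1 - η := by linarith
          exact this.ne'
        have i2 : κ - η ≠ 0 := by
          have : 0 < κ - η := by linarith
          exact this.ne'
        field_simp
    have hBB : BB (2 * m) t ≤ B * (1 + η) := by
      refine (BB_up (z := max t z₁) (by omega) (le_max_left _ _) (by
        have := le_max_right t z₁
        omega)).trans ?_
      apply mul_le_mul hWW _ (Real.exp_pos _).le (by linarith)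
      rw [← hL]
      have h3 : 2 * (L / Real.log 2) / ((max t z₁ : ℕ) : ℝ) ≤ Real.log (1 + η) := by
        refine le_trans ?_ g4
        apply div_le_div_of_nonneg_left
        · have : 0 < Real.log 2 := Real.log_pos (by norm_num)
          positivity
        · positivity
        · refine hz1.trans ?_
          exact_mod_cast le_max_right t z₁
      calc Real.exp (2 * (L / Real.log 2) / ((max t z₁ : ℕ) : ℝ)) ≤ Real.exp (Real.log (1 + η)) :=
            Real.exp_le_exp.2 h3
        _ = 1 + η := Real.exp_log (by linarith)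
    have h8 := Ss_down (n := 2 * m) (t := t) (by omega) ⟨m, rfl⟩ d3
    have h9 := Ss_nonneg (2 * m) t
    have h10 : (κ - 8 * η) * (B * (1 + η)) ≤ 1 := by
      rw [hB]
      exact arith κ η hη0 hη1 (by linarith) hκ1
    calc (κ - 8 * η) * SHL (2 * m) ≤ (κ - 8 * η) * (B * (1 + η) * Ss (2 * m) t) := by
          apply mul_le_mul_of_nonneg_left _ (by linarith)
          exact h8.trans (mul_le_mul_of_nonneg_right hBB h9)
      _ = ((κ - 8 * η) * (B * (1 + η))) * Ss (2 * m) t := by ring
      _ ≤ 1 * Ss (2 * m) t := mul_le_mul_of_nonneg_right h10 h9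
      _ = Ss (2 * m) t := one_mul _)
  linarith

end Pool.Agent.U839.Gb
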