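import Mathlib
import Pool.Agent.U839.Gb.Conc
import Pool.Agent.U839.Gb.Neg
import Pool.Agent.U839.Gb.Pos

set_option autoImplicit false

/-! # The Goldbach problem in random models: main theorem -/

open MeasureTheory ProbabilityTheory Filter Finset Topology

namespace Pool.Agent.U839.Gb

open Pool.Agent.U839.Sv (Pr mem_Pr W W_eq W_pos one_sub_pos fT fT_nonneg Sieved law' T_small)
open Pool.Agent.U839.Thin (tlog)
open Pool.Agent.U839.Fb (tloglog)

variable {Ω : Type*} [MeasurableSpace Ω] {μ : Measure Ω} [IsProbabilityMeasure μ]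

theorem liminf_of (f : ℕ → ℝ) (c : ℝ) (h1 : ∀ ε : ℝ, 0 < ε → ∀ᶠ n in atTop, c - ε ≤ f n)
    (h2 : ∀ ε : ℝ, 0 < ε → ∃ᶠ n in atTop, f n ≤ c + ε) : liminf f atTop = c := by
  apply le_antisymm
  · apply le_of_forall_pos_le_add
    intro ε hε
    exact liminf_le_of_frequently_le (h2 ε hε) ⟨c - 1, eventually_map.2 (h1 1 one_pos)⟩
  · apply le_of_forall_pos_le_add
    intro ε hε
    have := le_liminf_of_le (IsCoboundedUnder.of_frequently_le (h2 1 one_pos)) (h1 ε hε)
    linarith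

theorem limsup_of (f : ℕ → ℝ) (c : ℝ) (h1 : ∀ ε : ℝ, 0 < ε → ∀ᶠ n in atTop, f n ≤ c + ε)
    (h2 : ∀ ε : ℝ, 0 < ε → ∃ᶠ n in atTop, c - ε ≤ f n) : limsup f atTop = c := by
  apply le_antisymm
  · apply le_of_forall_pos_le_add
    intro ε hε
    exact limsup_le_of_le (IsCoboundedUnder.of_frequently_ge (h2 1 one_pos)) (h1 ε hε)
  · apply le_of_forall_pos_le_add
    intro ε hε
    have := le_limsup_of_frequently_le (h2 ε hε) ⟨c + 1, eventually_map.2 (h1 1 one_pos)⟩
    linarith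

theorem of_liminf (g : ℕ → ℝ) (hg : ∀ᶠ n in atTop, 0 ≤ g n ∧ g n ≤ 1) :
    (∀ ε : ℝ, 0 < ε → ∀ᶠ n in atTop, liminf g atTop - ε ≤ g n) ∧
    (∀ ε : ℝ, 0 < ε → ∃ᶠ n in atTop, g n ≤ liminf g atTop + ε) ∧ 0 ≤ liminf g atTop ∧ liminf g atTop ≤ 1 := by
  have hb : IsBoundedUnder (· ≥ ·) atTop g := ⟨0, eventually_map.2 (hg.mono (fun n h => h.1))⟩
  have hc : IsCoboundedUnder (· ≥ ·) atTop g :=
    IsCoboundedUnder.of_frequently_le (hg.mono (fun n h => h.2)).frequently
  refine ⟨fun ε hε => ?_, fun ε hε => ?_, ?_, ?_⟩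
  · exact (eventually_lt_of_lt_liminf (show liminf g atTop - ε < liminf g atTop by linarith) hb).mono
      (fun n h => h.le)
  · exact (frequently_lt_of_liminf_lt hc (show liminf g atTop < liminf g atTop + ε by linarith)).mono
      (fun n h => h.le)
  · exact le_liminf_of_le hc (hg.mono (fun n h => h.1))
  · exact liminf_le_of_frequently_le (hg.mono (fun n h => h.2)).frequently hb

/-- the prediction of Hardy and Littlewood -/
noncomputable def HLp (n : ℕ) : ℝ := SHL n * n / (Real.log n) ^ 2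

/-- the depth of the sieve -/
noncomputable def depth (T : ℕ → ℕ) : ℝ :=
  liminf (fun n : ℕ => min 1 (Real.log (T n) / Real.log (Real.log n))) atTop

theorem HLp_eq (m : ℕ) : HLp (2 * m) = 2 * hHL m := by
  unfold HLp hHL
  push_cast
  ring

theorem close {E : ℕ → Set Ω} {ω : Ω}
    (h : ∀ ε : ℝ, 0 < ε → ∀ᶠ m : ℕ in atTop, (1 - ε) * MM μ E m ≤ Cp {n | ω ∈ E n} m ∧
      (Cp {n | ω ∈ E n} m : ℝ) ≤ (1 + ε) * MM μ E m) (hup : ∀ᶠ m : ℕ in atTop, Mh μ E m ≤ 2)
    (ε : ℝ) (hε : 0 < ε) : ∀ᶠ m : ℕ in atTop, |(rp {n | ω ∈ E n} (2 * m) : ℝ) / HLp (2 * m) - Mh μ E m| ≤ ε := by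
  have hbig : ∀ᶠ m : ℕ in atTop, 1 / ε ≤ hHL m := by
    filter_upwards [Pool.Agent.U839.Sv.log_sq_small (4 / ε) 1 (by positivity) (by norm_num),
      eventually_ge_atTop 2] with m g2 g3
    have hm2 : (2 : ℝ) ≤ m := by exact_mod_cast g3
    have hm0 : (0 : ℝ) < m := by linarith
    rw [Real.rpow_one] at g2
    have h1 : Real.log (2 * m : ℕ) ≤ 2 * Real.log m := by
      push_cast
      rw [Real.log_mul (by norm_num) hm0.ne']
      have := Real.log_le_log (by norm_num) hm2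
      linarith
    have h2 : 0 < Real.log (2 * m : ℕ) := by
      apply Real.log_pos
      exact_mod_cast (by omega : 1 < 2 * m)
    have h3 : (Real.log (2 * m : ℕ)) ^ 2 ≤ (2 * Real.log m) ^ 2 := pow_le_pow_left₀ h2.le h1 2
    have h4 : 1 / ε ≤ m / (Real.log (2 * m : ℕ)) ^ 2 := by
      rw [le_div_iff₀ (by positivity)]
      calc 1 / ε * (Real.log (2 * m : ℕ)) ^ 2 ≤ 1 / ε * (2 * Real.log m) ^ 2 := by gcongr
        _ = 4 / ε * (Real.log m) ^ 2 := by ring
        _ ≤ m := by linarith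
    refine h4.trans ?_
    unfold hHL
    have := base_pos (m := m) (by omega)
    have := SHL_one (2 * m)
    nlinarith
  filter_upwards [h (ε / 4) (by positivity), hup, hbig, eventually_ge_atTop 1] with m h1 h2 h3 h4
  have hH := hHL_pos h4
  have h5 := rp_Cp {n | ω ∈ E n} m
  have h6 : (2 : ℝ) * Cp {n | ω ∈ E n} m ≤ rp {n | ω ∈ E n} (2 * m) := by exact_mod_cast h5.1
  have h7 : (rp {n | ω ∈ E n} (2 * m) : ℝ) ≤ 2 * Cp {n | ω ∈ E n} m + 1 := by exact_mod_cast h5.2
  have h8 : MM μ E m = Mh μ E m * hHL m := by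
    unfold Mh
    rw [div_mul_cancel₀ _ hH.ne']
  rw [h8] at h1
  have h0 := Mh_nonneg (μ := μ) (E := E) h4
  obtain ⟨M, hM⟩ : ∃ M, M = Mh μ E m := ⟨_, rfl⟩
  obtain ⟨H, hH'⟩ : ∃ H, H = hHL m := ⟨_, rfl⟩
  rw [HLp_eq]
  rw [← hM, ← hH'] at h1
  rw [← hM] at h0 h2 ⊢
  rw [← hH'] at hH h3 ⊢
  rw [div_le_iff₀ hε] at h3
  have k1 : ε / 4 * (M * H) ≤ ε / 4 * (2 * H) := by gcongr
  rw [abs_le]
  constructor
  · have : M - ε ≤ (rp {n | ω ∈ E n} (2 * m) : ℝ) / (2 * H) := by
      rw [le_div_iff₀ (by positivity)]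
      nlinarith [h1.1]
    linarith
  · have : (rp {n | ω ∈ E n} (2 * m) : ℝ) / (2 * H) ≤ M + ε := by
      rw [div_le_iff₀ (by positivity)]
      nlinarith [h1.2]
    linarith

/-- the main theorem -/
theorem main (T : ℕ → ℕ) (hT : Monotone T)
    (hTs : ∀ ε : ℝ, 0 < ε → ∀ᶠ n : ℕ in atTop, (T n : ℝ) ≤ (n : ℝ) ^ ε) (hTi : Tendsto T atTop atTop)
    {E : ℕ → Set Ω} (hE : Sieved μ E T) : ∀ᵐ ω ∂μ,
      liminf (fun m : ℕ => (rp {n | ω ∈ E n} (2 * m) : ℝ) / HLp (2 * m)) atTop = depth T ∧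
      limsup (fun m : ℕ => (rp {n | ω ∈ E n} (2 * m) : ℝ) / HLp (2 * m)) atTop = 1 ∧
      liminf (fun m : ℕ => (rp {n | ω ∈ E n} (2 * m) : ℝ) * (Real.log (2 * m : ℕ)) ^ 2 / (2 * m : ℕ)) atTop
        = 2 * C2 ∧
      (Tendsto (fun m : ℕ => (rp {n | ω ∈ E n} (2 * m) : ℝ) / HLp (2 * m)) atTop (𝓝 1) ↔
        ∀ δ : ℝ, 0 < δ → ∀ᶠ n : ℕ in atTop, (Real.log n) ^ (1 - δ) ≤ T n) := by
  -- the depth
  have hg : ∀ᶠ n : ℕ in atTop, 0 ≤ min 1 (Real.log (T n) / Real.log (Real.log n)) ∧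
      min 1 (Real.log (T n) / Real.log (Real.log n)) ≤ 1 := by
    filter_upwards [tloglog.eventually_gt_atTop 0] with n g1
    refine ⟨le_min zero_le_one (div_nonneg (Real.log_natCast_nonneg _) g1.le), min_le_left _ _⟩
  obtain ⟨d1, d2, d3, d4⟩ := of_liminf _ hg
  have hdd : liminf (fun n : ℕ => min 1 (Real.log (T n) / Real.log (Real.log n))) atTop = depth T := rfl
  rw [hdd] at d3 d4
  simp only [hdd] at d1 d2
  obtain ⟨κ, hκ⟩ : ∃ κ, κ = depth T := ⟨_, rfl⟩
  rw [← hκ] at d1 d2 d3 d4 ⊢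
  have hpos := pos T hT hTs hTi hE κ d4 (fun ε hε => by
    filter_upwards [d1 ε hε, tloglog.eventually_gt_atTop 0] with n h1 h2
    have h3 := h1.trans (min_le_right _ _)
    rwa [le_div_iff₀ h2] at h3)
  have hup := upper T hT hTs hTi hE
  have hfr : ∀ ε : ℝ, 0 < ε → ∃ᶠ m : ℕ in atTop, Mh μ E m ≤ κ + ε := by
    intro ε hε
    rcases eq_or_lt_of_le d4 with h | h
    · rw [h]
      exact (hup ε hε).frequently
    · obtain ⟨η, hη⟩ : ∃ η, η = min (ε / 2) (min ((1 - κ) / 2) 1) := ⟨_, rfl⟩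
      have hη0 : 0 < η := by
        rw [hη]
        apply lt_min (by linarith) (lt_min (by linarith) one_pos)
      have hη1 : η ≤ 1 := by rw [hη]; exact (min_le_right _ _).trans (min_le_right _ _)
      have hη2 : η ≤ (1 - κ) / 2 := by rw [hη]; exact (min_le_right _ _).trans (min_le_left _ _)
      have hη3 : η ≤ ε / 2 := by rw [hη]; exact min_le_left _ _
      have h1 := neg T hT hTs hTi hE (κ + η) (by linarith) (by linarith) (by
        apply ((d2 η hη0).and_eventually (tloglog.eventually_gt_atTop 0)).mono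
        rintro n ⟨h2, h3⟩
        rcases min_le_iff.1 h2 with h4 | h4
        · linarith
        · rwa [div_le_iff₀ h3] at h4) η hη0 hη1
      exact h1.mono (fun m h2 => by linarith)
  have hpw : ∀ ε : ℝ, 0 < ε → ∃ᶠ m : ℕ in atTop, 1 - ε ≤ Mh μ E m ∧ SHL (2 * m) = 2 * C2 := by
    intro ε hε
    obtain ⟨m₀, hm₀⟩ := eventually_atTop.1 (pow_ratio T hT hTs hTi hE ε hε)
    rw [frequently_atTop]
    intro M
    have h1 : max M m₀ ≤ 2 ^ (max M m₀) := Nat.lt_two_pow_self.le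
    refine ⟨2 ^ (max M m₀), (le_max_left _ _).trans h1, hm₀ _ ((le_max_right _ _).trans h1) ⟨_, rfl⟩, ?_⟩
    rw [← pow_succ']
    exact SHL_pow _
  have hun := unif T hT hTs hTi hE
  have hconc := conc hE.meas hE.indep (low_sqrt T hT hTs hTi hE)
  filter_upwards [hconc] with ω hω
  have hcl := close hω ((hup 1 one_pos).mono (fun m h => by linarith))
  obtain ⟨R, hR⟩ : ∃ R : ℕ → ℝ, R = fun m : ℕ => (rp {n | ω ∈ E n} (2 * m) : ℝ) / HLp (2 * m) := ⟨_, rfl⟩
  have hcl' : ∀ ε : ℝ, 0 < ε → ∀ᶠ m : ℕ in atTop, |R m - Mh μ E m| ≤ ε := by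
    intro ε hε
    rw [hR]
    exact hcl ε hε
  have r1 : ∀ ε : ℝ, 0 < ε → ∀ᶠ m : ℕ in atTop, κ - ε ≤ R m := by
    intro ε hε
    filter_upwards [hcl' (ε / 2) (by linarith), hpos (ε / 2) (by linarith)] with m h1 h2
    have := (abs_le.1 h1).1
    linarith
  have r2 : ∀ ε : ℝ, 0 < ε → ∃ᶠ m : ℕ in atTop, R m ≤ κ + ε := by
    intro ε hε
    apply ((hfr (ε / 2) (by linarith)).and_eventually (hcl' (ε / 2) (by linarith))).mono
    rintro m ⟨h1, h2⟩
    have := (abs_le.1 h2).2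
    linarith
  have r3 : ∀ ε : ℝ, 0 < ε → ∀ᶠ m : ℕ in atTop, R m ≤ 1 + ε := by
    intro ε hε
    filter_upwards [hcl' (ε / 2) (by linarith), hup (ε / 2) (by linarith)] with m h1 h2
    have := (abs_le.1 h1).2
    linarith
  have r4 : ∀ ε : ℝ, 0 < ε → ∃ᶠ m : ℕ in atTop, 1 - ε ≤ R m ∧ SHL (2 * m) = 2 * C2 := by
    intro ε hε
    apply ((hpw (ε / 2) (by linarith)).and_eventually (hcl' (ε / 2) (by linarith))).mono
    rintro m ⟨h1, h2⟩
    have := (abs_le.1 h2).1
    exact ⟨by linarith [h1.1], h1.2⟩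
  have e1 : liminf R atTop = κ := liminf_of R κ r1 r2
  have e2 : limsup R atTop = 1 := limsup_of R 1 r3 (fun ε hε => (r4 ε hε).mono (fun m h => h.1))
  rw [← hR]
  refine ⟨e1, e2, ?_, ?_⟩
  · have hC := C2_low
    have hC1 : C2 ≤ 1 := (C2_le 0).trans (cc_le 0)
    apply liminf_of
    · intro ε hε
      obtain ⟨η, hη⟩ : ∃ η, η = min (ε / 4) 1 := ⟨_, rfl⟩
      have hη0 : 0 < η := by rw [hη]; positivity
      have hη1 : η ≤ 1 := by rw [hη]; exact min_le_right _ _
      have hηε : η ≤ ε / 4 := by rw [hη]; exact min_le_left _ _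
      filter_upwards [hω η hη0, hun η hη0, eventually_ge_atTop 1] with m h1 h2 h3
      have hm0 : (0 : ℝ) < m := by exact_mod_cast h3
      have hb := base_pos h3
      have hL : 0 < Real.log (2 * m : ℕ) := by
        apply Real.log_pos
        exact_mod_cast (by omega : 1 < 2 * m)
      have h5 := (rp_Cp {n | ω ∈ E n} m).1
      have h6 : (2 : ℝ) * Cp {n | ω ∈ E n} m ≤ rp {n | ω ∈ E n} (2 * m) := by exact_mod_cast h5
      rw [le_div_iff₀ (by exact_mod_cast (by omega : 0 < 2 * m))]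
      have h7 : (1 - η) * ((2 * C2 - η) * (m / (Real.log (2 * m : ℕ)) ^ 2)) ≤ Cp {n | ω ∈ E n} m :=
        (mul_le_mul_of_nonneg_left h2 (by linarith)).trans h1.1
      have h8 : (2 * C2 - ε) * (m / (Real.log (2 * m : ℕ)) ^ 2) ≤ Cp {n | ω ∈ E n} m := by
        refine le_trans ?_ h7
        rw [← mul_assoc]
        apply mul_le_mul_of_nonneg_right _ hb.le
        have : η * C2 ≤ η * 1 := by gcongr
        nlinarith [mul_pos hη0 hη0]
      have h9 : (2 * C2 - ε) * m ≤ Cp {n | ω ∈ E n} m * (Real.log (2 * m : ℕ)) ^ 2 := by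
        rw [← mul_div_assoc, div_le_iff₀ (by positivity)] at h8
        exact h8
      have h10 : (2 : ℝ) * Cp {n | ω ∈ E n} m * (Real.log (2 * m : ℕ)) ^ 2 ≤
          rp {n | ω ∈ E n} (2 * m) * (Real.log (2 * m : ℕ)) ^ 2 := by gcongr
      push_cast at h9 h10 ⊢
      linarith
    · intro ε hε
      obtain ⟨m₁, hm₁⟩ := eventually_atTop.1 (r3 (ε / 2) (by linarith))
      apply ((r4 1 one_pos).and_eventually (eventually_ge_atTop (max m₁ 1))).mono
      rintro m ⟨h1, h2⟩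
      have h3 : 1 ≤ m := (le_max_right _ _).trans h2
      have h4 := hm₁ m ((le_max_left _ _).trans h2)
      have hm0 : (0 : ℝ) < m := by exact_mod_cast h3
      have hL : 0 < Real.log (2 * m : ℕ) := by
        apply Real.log_pos
        exact_mod_cast (by omega : 1 < 2 * m)
      have h5 : 0 < HLp (2 * m) := by
        rw [HLp_eq]
        linarith [hHL_pos h3]
      rw [hR] at h4
      simp only at h4
      rw [div_le_iff₀ h5] at h4
      rw [div_le_iff₀ (by exact_mod_cast (by omega : 0 < 2 * m))]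
      unfold HLp at h4
      rw [h1.2, ← mul_div_assoc, le_div_iff₀ (by positivity)] at h4
      refine h4.trans ?_
      have h6 : (0 : ℝ) < ((2 * m : ℕ) : ℝ) := by exact_mod_cast (by omega : 0 < 2 * m)
      rw [← mul_assoc]
      apply mul_le_mul_of_nonneg_right _ h6.le
      have : ε * C2 ≤ ε * 1 := by gcongr
      linarith
  · constructor
    · intro h δ hδ
      have h1 : κ = 1 := by rw [← e1]; exact h.liminf_eq
      filter_upwards [d1 δ hδ, tloglog.eventually_gt_atTop 0, tlog.eventually_gt_atTop 0,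
        hTi.eventually_ge_atTop 1] with n h2 h3 h4 h5
      have h6 := h2.trans (min_le_right _ _)
      rw [le_div_iff₀ h3, h1] at h6
      have h7 : (0 : ℝ) < T n := by exact_mod_cast h5
      rw [Real.rpow_def_of_pos h4, mul_comm, ← Real.exp_log h7]
      exact Real.exp_le_exp.2 h6
    · intro h
      have h1 : κ = 1 := by
        apply le_antisymm d4
        apply le_of_forall_pos_le_add
        intro ε hε
        obtain ⟨n, h2, h3, h4, h5, h6⟩ := ((d2 (ε / 2) (by linarith)).and_eventually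
          ((h (ε / 2) (by linarith)).and ((tloglog.eventually_gt_atTop 0).and
            ((tlog.eventually_gt_atTop 0).and (hTi.eventually_ge_atTop 1))))).exists
        have h7 : (0 : ℝ) < T n := by exact_mod_cast h6
        have h8 := Real.log_le_log (Real.rpow_pos_of_pos h5 _) h3
        rw [Real.log_rpow h5] at h8
        rcases min_le_iff.1 h2 with h9 | h9
        · linarith
        · rw [div_le_iff₀ h4] at h9
          have h10 : (1 - ε / 2) * Real.log (Real.log n) ≤ (κ + ε / 2) * Real.log (Real.log n) := h8.trans h9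
          have h11 := le_of_mul_le_mul_right h10 h4
          linarith
      rw [Metric.tendsto_atTop']
      intro ε hε
      have h2 := (r1 (ε / 2) (by linarith)).and (r3 (ε / 2) (by linarith))
      obtain ⟨N, hN⟩ := eventually_atTop.1 h2
      refine ⟨N, fun n hn => ?_⟩
      have h3 := hN n hn.le
      rw [h1] at h3
      rw [Real.dist_eq, abs_lt]
      constructor <;> linarith [h3.1, h3.2]

end Pool.Agent.U839.Gb
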